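import Mathlib
import Pool.Agent.H815R2.FlatThinMain
import Pool.Agent.H2R2.Cov2

set_option autoImplicit false

/-!
Gauges of convex bodies which need not be symmetric: volumes, Brunn-Minkowski and transfer.
-/

namespace Pool.Agent.TH591.Ns

open MeasureTheory Set
open scoped ENNReal Pointwise NNReal
open Pool.Agent.H815R2.Flat (bm_E)
open Pool.Agent.H815R2.Thin (geomK)

variable {d : ℕ}

/-- `g` is the gauge of a convex set with `0` in its interior. -/
structure IsG (g : EuclideanSpace ℝ (Fin d) → ℝ) : Prop where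
  nonneg : ∀ x, 0 ≤ g x
  add : ∀ x y, g (x + y) ≤ g x + g y
  smul : ∀ c : ℝ, 0 ≤ c → ∀ x, g (c • x) = c * g x
  cont : Continuous g

/-- `P` is a sublinear function, at most `g`. -/
structure IsP (g P : EuclideanSpace ℝ (Fin d) → ℝ) : Prop where
  add : ∀ x y, P (x + y) ≤ P x + P y
  smul : ∀ c : ℝ, 0 ≤ c → ∀ x, P (c • x) = c * P x
  cont : Continuous P
  le : ∀ x, P x ≤ g x

variable {g P : EuclideanSpace ℝ (Fin d) → ℝ}

theorem IsG.zero (hg : IsG g) : g 0 = 0 := by
  have := hg.smul 0 le_rfl 0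
  simpa using this

theorem IsG.ms (hg : IsG g) (r : ℝ) : MeasurableSet {y | g y ≤ r} :=
  (isClosed_le hg.cont continuous_const).measurableSet

theorem vol_ball (hg : IsG g) (r : ℝ) (hr : 0 < r) :
    volume {y : EuclideanSpace ℝ (Fin d) | g y ≤ r}
      = ENNReal.ofReal (r ^ d) * volume {y : EuclideanSpace ℝ (Fin d) | g y ≤ 1} := by
  have e : {z : EuclideanSpace ℝ (Fin d) | g z ≤ r}
      = r • {z : EuclideanSpace ℝ (Fin d) | g z ≤ 1} := by
    ext z
    rw [Set.mem_smul_set_iff_inv_smul_mem₀ hr.ne', mem_ofPred_eq, mem_ofPred_eq,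
      hg.smul _ (by positivity), inv_mul_le_iff₀ hr, mul_one]
  rw [e, Measure.addHaar_smul, finrank_euclideanSpace_fin, abs_of_pos (by positivity)]

theorem vol_cone (hg : IsG g) (hP : IsP g P) (r : ℝ) (hr : 0 < r) :
    volume {z : EuclideanSpace ℝ (Fin d) | g z ≤ r ∧ g z ≤ P z}
      = ENNReal.ofReal (r ^ d) * volume {z : EuclideanSpace ℝ (Fin d) | g z ≤ 1 ∧ g z ≤ P z} := by
  have e : {z : EuclideanSpace ℝ (Fin d) | g z ≤ r ∧ g z ≤ P z}
      = r • {z : EuclideanSpace ℝ (Fin d) | g z ≤ 1 ∧ g z ≤ P z} := by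
    ext z
    have hr' : 0 < r⁻¹ := by positivity
    rw [Set.mem_smul_set_iff_inv_smul_mem₀ hr.ne', mem_ofPred_eq, mem_ofPred_eq,
      hg.smul _ hr'.le, hP.smul _ hr'.le]
    rw [mul_le_mul_iff_right₀ hr', inv_mul_le_iff₀ hr, mul_one]
  rw [e, Measure.addHaar_smul, finrank_euclideanSpace_fin, abs_of_pos (by positivity)]

theorem cone_diff (hd : 1 < d) (hg : IsG g) (hP : IsP g P)
    (hfin : volume {y : EuclideanSpace ℝ (Fin d) | g y ≤ 1} ≠ ⊤) :
    volume ({z : EuclideanSpace ℝ (Fin d) | g z ≤ 1 ∧ g z ≤ P z} \ {z | g z ≤ 1 - 1 / (d : ℝ)})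
      = ENNReal.ofReal (1 - (1 - 1 / (d : ℝ)) ^ d)
        * volume {z : EuclideanSpace ℝ (Fin d) | g z ≤ 1 ∧ g z ≤ P z} := by
  have hd' : (1 : ℝ) < d := by exact_mod_cast hd
  have hr0 : 0 < 1 - 1 / (d : ℝ) := by
    rw [sub_pos, div_lt_one (by linarith)]; exact hd'
  have hr1 : 1 - 1 / (d : ℝ) ≤ 1 := by
    have : 0 < 1 / (d : ℝ) := by positivity
    linarith
  set r := 1 - 1 / (d : ℝ) with hr
  set S : Set (EuclideanSpace ℝ (Fin d)) := {z | g z ≤ 1 ∧ g z ≤ P z} with hS
  have hSm : MeasurableSet S := ((isClosed_le hg.cont continuous_const).inter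
    (isClosed_le hg.cont hP.cont)).measurableSet
  have hBm : MeasurableSet {z : EuclideanSpace ℝ (Fin d) | g z ≤ r} := hg.ms r
  have hSfin : volume S ≠ ⊤ := ne_top_of_le_ne_top hfin (measure_mono fun z hz => hz.1)
  have e : S ∩ {z | g z ≤ r} = {z : EuclideanSpace ℝ (Fin d) | g z ≤ r ∧ g z ≤ P z} := by
    ext z
    constructor
    · rintro ⟨h1, h2⟩
      exact ⟨h2, h1.2⟩
    · rintro ⟨h1, h2⟩
      exact ⟨⟨h1.trans hr1, h2⟩, h1⟩
  have h1 := measure_inter_add_sdiff (μ := (volume : Measure (EuclideanSpace ℝ (Fin d)))) S hBm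
  rw [e, vol_cone hg hP r hr0] at h1
  have hrd : r ^ d ≤ 1 := pow_le_one₀ hr0.le hr1
  have h2 : ENNReal.ofReal (r ^ d) * volume S + ENNReal.ofReal (1 - r ^ d) * volume S
      = volume S := by
    rw [← add_mul, ← ENNReal.ofReal_add (by positivity) (by linarith)]
    rw [add_sub_cancel, ENNReal.ofReal_one, one_mul]
  have h3 := h1.trans h2.symm
  exact (ENNReal.add_right_inj (ENNReal.mul_ne_top ENNReal.ofReal_ne_top hSfin)).mp h3

theorem drop (hd : 1 < d) (hg : IsG g) (hP : IsP g P)
    (hfin : volume {y : EuclideanSpace ℝ (Fin d) | g y ≤ 1} ≠ ⊤)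
    (β : ℝ) (hβ0 : 0 ≤ β) (hβ1 : β ≤ 1)
    (hS : ENNReal.ofReal β * volume {y : EuclideanSpace ℝ (Fin d) | g y ≤ 1}
      ≤ volume {z : EuclideanSpace ℝ (Fin d) | g z ≤ 1 ∧ g z ≤ P z}) (k : ℕ) :
    volume {z : EuclideanSpace ℝ (Fin d) | g z ≤ 1 ∧ P z ≤ 1 - k / d}
      ≤ ENNReal.ofReal ((1 - β * (1 - (1 - 1 / (d : ℝ)) ^ d)) ^ k)
        * volume {y : EuclideanSpace ℝ (Fin d) | g y ≤ 1} := by
  have hd' : (1 : ℝ) < d := by exact_mod_cast hd
  have hd0 : (0 : ℝ) < d := by linarith
  have hr0 : 0 < 1 - 1 / (d : ℝ) := by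
    rw [sub_pos, div_lt_one (by linarith)]; exact hd'
  have hr1 : 1 - 1 / (d : ℝ) ≤ 1 := by
    have : 0 < 1 / (d : ℝ) := by positivity
    linarith
  have hrd : (1 - 1 / (d : ℝ)) ^ d ≤ 1 := pow_le_one₀ hr0.le hr1
  have hrd0 : 0 < (1 - 1 / (d : ℝ)) ^ d := by positivity
  set κ : ℝ := 1 - β * (1 - (1 - 1 / (d : ℝ)) ^ d) with hκ
  have hκ0 : 0 ≤ κ := by
    have : β * (1 - (1 - 1 / (d : ℝ)) ^ d) ≤ 1 * 1 := by gcongr; linarith
    rw [hκ]; linarith
  set V := volume {y : EuclideanSpace ℝ (Fin d) | g y ≤ 1} with hV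
  set A : ℕ → Set (EuclideanSpace ℝ (Fin d)) := fun k => {z | g z ≤ 1 ∧ P z ≤ 1 - k / d} with hA
  have hAm : ∀ k, MeasurableSet (A k) := fun k =>
    ((isClosed_le hg.cont continuous_const).inter
      (isClosed_le hP.cont continuous_const)).measurableSet
  have hAfin : ∀ k, volume (A k) ≠ ⊤ := fun k =>
    ne_top_of_le_ne_top hfin (measure_mono fun z hz => hz.1)
  have hA0 : A 0 = {y | g y ≤ 1} := by
    ext z
    simp only [hA, mem_ofPred_eq, Nat.cast_zero, zero_div, sub_zero]
    exact ⟨fun h => h.1, fun h => ⟨h, (hP.le z).trans h⟩⟩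
  set a : ℕ → ℝ := fun k => (volume (A k)).toReal with ha
  have hmono : ∀ k, a (k + 1) ≤ a k := by
    intro k
    refine ENNReal.toReal_mono (hAfin k) (measure_mono ?_)
    rintro z ⟨h1, h2⟩
    refine ⟨h1, h2.trans ?_⟩
    push_cast
    gcongr
    linarith
  have hlc : ∀ k, a k * a (k + 2) ≤ a (k + 1) ^ 2 := by
    intro k
    have := bm_E (hAm k) (hAm (k + 2)) (hAm (k + 1)) (by
      rintro x ⟨hx1, hx2⟩ y ⟨hy1, hy2⟩
      constructor
      · rw [hg.smul _ (by norm_num)]
        have := hg.add x y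
        linarith
      · rw [hP.smul _ (by norm_num)]
        have := hP.add x y
        push_cast at hx2 hy2 ⊢
        have e : (1 : ℝ) - (k + 1) / d = 1 / 2 * ((1 - k / d) + (1 - (k + 2) / d)) := by
          field_simp
          ring
        rw [e]
        linarith)
    have h2 := ENNReal.toReal_mono (by
      exact ENNReal.pow_ne_top (hAfin _)) this
    rwa [ENNReal.toReal_mul, ENNReal.toReal_pow] at h2
  have h1 : a 1 ≤ κ * a 0 := by
    have hdiff := cone_diff hd hg hP hfin
    set S : Set (EuclideanSpace ℝ (Fin d)) := {z | g z ≤ 1 ∧ g z ≤ P z} with hS'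
    have hSm : MeasurableSet S := ((isClosed_le hg.cont continuous_const).inter
      (isClosed_le hg.cont hP.cont)).measurableSet
    have hBm : MeasurableSet {z : EuclideanSpace ℝ (Fin d) | g z ≤ 1 - 1 / (d : ℝ)} := hg.ms _
    have hdisj : Disjoint (A 1) (S \ {z | g z ≤ 1 - 1 / (d : ℝ)}) := by
      rw [Set.disjoint_left]
      rintro z ⟨_, h1⟩ ⟨h2, h3⟩
      apply h3
      push_cast at h1
      exact h2.2.trans h1
    have h4 : volume (A 1) + volume (S \ {z | g z ≤ 1 - 1 / (d : ℝ)}) ≤ V := by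
      rw [← measure_union hdisj (hSm.diff hBm)]
      refine measure_mono ?_
      rintro z (h | h)
      · exact h.1
      · exact h.1.1
    rw [hdiff] at h4
    have h5 : volume (A 1) + ENNReal.ofReal (1 - (1 - 1 / (d : ℝ)) ^ d) * (ENNReal.ofReal β * V)
        ≤ V := by
      refine le_trans ?_ h4
      gcongr
    have h6 := ENNReal.toReal_mono hfin h5
    rw [ENNReal.toReal_add (hAfin 1) (ENNReal.mul_ne_top ENNReal.ofReal_ne_top
      (ENNReal.mul_ne_top ENNReal.ofReal_ne_top hfin)), ENNReal.toReal_mul, ENNReal.toReal_mul,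
      ENNReal.toReal_ofReal (by linarith), ENNReal.toReal_ofReal hβ0] at h6
    have h7 : a 0 = V.toReal := by
      rw [ha]
      simp only
      rw [hA0]
    rw [h7, hκ]
    have h8 : a 1 = (volume (A 1)).toReal := rfl
    rw [h8]
    linarith
  have hgg := geomK a κ hκ0 (fun k => ENNReal.toReal_nonneg) hmono hlc h1 k
  rw [← ENNReal.toReal_le_toReal (hAfin k) (ENNReal.mul_ne_top ENNReal.ofReal_ne_top hfin),
    ENNReal.toReal_mul, ENNReal.toReal_ofReal (by positivity)]
  have h7 : a 0 = V.toReal := by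
    rw [ha]
    simp only
    rw [hA0]
  rw [h7] at hgg
  exact hgg

section Family

variable {ι : Type*} [Fintype ι]

/-- The transfer lemma: the sum of the points of a spread-out family and of a random point of the
body is spread out in the sense of `L²`. -/
theorem transfer_eps (hg : IsG g)
    (hfin : volume {y : EuclideanSpace ℝ (Fin d) | g y ≤ 1} ≠ ⊤)
    (u : ι → EuclideanSpace ℝ (Fin d)) (hu : ∀ i, g (u i) ≤ 1) (r q D ε : ℝ)
    (hr0 : 0 < r) (hr1 : r ≤ 1) (hq0 : 0 < q) (hε : 0 < ε)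
    (hq : ∀ y : EuclideanSpace ℝ (Fin d),
      (∑ i : ι, if g (u i - y) ≤ r then (1 : ℝ) else 0) ≤ q)
    (hD : q * 2 ^ d ≤ D * Fintype.card ι * r ^ d)
    (B : Set (EuclideanSpace ℝ (Fin d))) (hB : MeasurableSet B) :
    ∑ i, volume {z : EuclideanSpace ℝ (Fin d) | g z ≤ r ∧ u i + z ∈ B}
      ≤ ENNReal.ofReal (ε / 2 * (Fintype.card ι * r ^ d))
          * volume {y : EuclideanSpace ℝ (Fin d) | g y ≤ 1}
        + ENNReal.ofReal (D / (2 * ε) * (Fintype.card ι * r ^ d))
          * volume {z : EuclideanSpace ℝ (Fin d) | g z ≤ 1 ∧ (2 : ℝ) • z ∈ B} := by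
  classical
  set V := volume {y : EuclideanSpace ℝ (Fin d) | g y ≤ 1} with hV
  set C : ι → Set (EuclideanSpace ℝ (Fin d)) := fun i => {y | g (y - u i) ≤ r} with hC
  have hCm : ∀ i, MeasurableSet (C i) := fun i =>
    (isClosed_le (hg.cont.comp (continuous_id.sub continuous_const)) continuous_const).measurableSet
  -- left side
  have h1 : ∀ i, volume {z : EuclideanSpace ℝ (Fin d) | g z ≤ r ∧ u i + z ∈ B}
      = ∫⁻ y in B, (C i).indicator 1 y := by
    intro i
    rw [lintegral_indicator_one (hCm i), Measure.restrict_apply (hCm i)]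
    rw [← measure_preimage_add volume (u i) (C i ∩ B)]
    congr 1
    ext z
    simp only [hC, mem_ofPred_eq, mem_preimage, mem_inter_iff, add_sub_cancel_left]
  set f : EuclideanSpace ℝ (Fin d) → ℝ≥0∞ := fun y => ∑ i, (C i).indicator 1 y with hf
  have hfm : Measurable f := Finset.measurable_sum _ fun i _ => measurable_one.indicator (hCm i)
  have hB2 : MeasurableSet (B ∩ {y : EuclideanSpace ℝ (Fin d) | g y ≤ 2}) := hB.inter (hg.ms 2)
  -- pointwise
  have hpt : ∀ y, f y ≤ ENNReal.ofReal (ε / (2 * q)) * (f y * f y)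
      + ENNReal.ofReal (q / (2 * ε)) * ({y | g y ≤ 2} : Set _).indicator 1 y := by
    intro y
    have hfy : f y = ENNReal.ofReal (∑ i, if g (y - u i) ≤ r then (1 : ℝ) else 0) := by
      rw [ENNReal.ofReal_sum_of_nonneg (fun i _ => by split_ifs <;> norm_num)]
      refine Finset.sum_congr rfl fun i _ => ?_
      by_cases h : g (y - u i) ≤ r
      · rw [indicator_of_mem (show y ∈ C i from h), if_pos h]; simp
      · rw [indicator_of_notMem (show y ∉ C i from h), if_neg h]; simp
    by_cases hy : g y ≤ 2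
    · rw [indicator_of_mem (show y ∈ {y | g y ≤ 2} from hy), Pi.one_apply, mul_one, hfy]
      have h0 : 0 ≤ ∑ i, if g (y - u i) ≤ r then (1 : ℝ) else 0 :=
        Finset.sum_nonneg fun i _ => by split_ifs <;> norm_num
      set s := ∑ i, if g (y - u i) ≤ r then (1 : ℝ) else 0 with hs
      rw [← ENNReal.ofReal_mul h0, ← ENNReal.ofReal_mul (by positivity),
        ← ENNReal.ofReal_add (by positivity) (by positivity)]
      apply ENNReal.ofReal_le_ofReal
      have e : ε / (2 * q) * (s * s) + q / (2 * ε) - s = (ε * s - q) ^ 2 / (2 * ε * q) := by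
        field_simp
        ring
      have : 0 ≤ (ε * s - q) ^ 2 / (2 * ε * q) := by positivity
      linarith
    · have h0 : f y = 0 := by
        refine Finset.sum_eq_zero fun i _ => ?_
        rw [indicator_of_notMem]
        intro h
        apply hy
        calc g y = g ((y - u i) + u i) := by rw [sub_add_cancel]
          _ ≤ g (y - u i) + g (u i) := hg.add _ _
          _ ≤ r + 1 := add_le_add h (hu i)
          _ ≤ 2 := by linarith
      rw [h0]
      exact zero_le
  have hmm : ∀ i j, MeasurableSet {z : EuclideanSpace ℝ (Fin d) | g (u i - (u j - z)) ≤ r} :=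
    fun i j => (isClosed_le (hg.cont.comp (continuous_const.sub
      (continuous_const.sub continuous_id))) continuous_const).measurableSet
  have hff : Measurable fun y => f y * f y := hfm.mul hfm
  -- the second moment
  have hsq : ∫⁻ y, f y * f y ≤ ENNReal.ofReal (q * (Fintype.card ι * r ^ d)) * V := by
    have e1 : ∀ y, f y * f y = ∑ j, ∑ i, (C i ∩ C j).indicator 1 y := by
      intro y
      rw [hf, Finset.sum_mul_sum, Finset.sum_comm]
      refine Finset.sum_congr rfl fun j _ => Finset.sum_congr rfl fun i _ => ?_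
      rw [Set.inter_indicator_one]
      rfl
    have e2 : ∀ j i, volume (C i ∩ C j)
        = ∫⁻ z in {z : EuclideanSpace ℝ (Fin d) | g z ≤ r},
          ({z | g (u i - (u j - z)) ≤ r} : Set (EuclideanSpace ℝ (Fin d))).indicator 1 z := by
      intro j i
      rw [lintegral_indicator_one (hmm i j), Measure.restrict_apply (hmm i j),
        ← measure_preimage_add volume (u i) (C i ∩ C j)]
      congr 1
      ext z
      simp only [hC, mem_ofPred_eq, mem_preimage, mem_inter_iff, add_sub_cancel_left]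
      rw [and_comm]
      have : u i + z - u j = u i - (u j - z) := by abel
      rw [this]
    calc ∫⁻ y, f y * f y = ∫⁻ y, ∑ j, ∑ i, (C i ∩ C j).indicator 1 y := by simp only [e1]
      _ = ∑ j, ∑ i, volume (C i ∩ C j) := by
          rw [lintegral_finsetSum _ (fun j _ => Finset.measurable_sum _ fun i _ =>
            measurable_one.indicator ((hCm i).inter (hCm j)))]
          refine Finset.sum_congr rfl fun j _ => ?_
          rw [lintegral_finsetSum _ (fun i _ => measurable_one.indicator ((hCm i).inter (hCm j)))]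
          refine Finset.sum_congr rfl fun i _ => ?_
          rw [lintegral_indicator_one ((hCm i).inter (hCm j))]
      _ = ∑ j, ∫⁻ z in {z : EuclideanSpace ℝ (Fin d) | g z ≤ r}, ∑ i,
          ({z | g (u i - (u j - z)) ≤ r} : Set (EuclideanSpace ℝ (Fin d))).indicator 1 z := by
          refine Finset.sum_congr rfl fun j _ => ?_
          rw [lintegral_finsetSum _ (fun i _ => measurable_one.indicator (hmm i j))]
          exact Finset.sum_congr rfl fun i _ => e2 j i
      _ ≤ ∑ _j : ι, ∫⁻ _z in {z : EuclideanSpace ℝ (Fin d) | g z ≤ r}, ENNReal.ofReal q := by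
          refine Finset.sum_le_sum fun j _ => lintegral_mono fun z => ?_
          refine le_trans (le_of_eq ?_) (ENNReal.ofReal_le_ofReal (hq (u j - z)))
          rw [ENNReal.ofReal_sum_of_nonneg (fun i _ => by split_ifs <;> norm_num)]
          refine Finset.sum_congr rfl fun i _ => ?_
          by_cases h : g (u i - (u j - z)) ≤ r
          · rw [indicator_of_mem (show z ∈ {z | g (u i - (u j - z)) ≤ r} from h), if_pos h]; simp
          · rw [indicator_of_notMem (show z ∉ {z | g (u i - (u j - z)) ≤ r} from h), if_neg h]; simp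
      _ = _ := by
          rw [setLIntegral_const, vol_ball hg r hr0, Finset.sum_const, nsmul_eq_mul,
            Finset.card_univ, ← mul_assoc, ← mul_assoc, ENNReal.ofReal_mul hq0.le,
            ENNReal.ofReal_mul (by positivity), ENNReal.ofReal_natCast]
          ring
  -- the ball of radius two
  have h2B : volume (B ∩ {y : EuclideanSpace ℝ (Fin d) | g y ≤ 2})
      = ENNReal.ofReal (2 ^ d)
        * volume {z : EuclideanSpace ℝ (Fin d) | g z ≤ 1 ∧ (2 : ℝ) • z ∈ B} := by
    have e : B ∩ {y : EuclideanSpace ℝ (Fin d) | g y ≤ 2}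
        = (2 : ℝ) • {z : EuclideanSpace ℝ (Fin d) | g z ≤ 1 ∧ (2 : ℝ) • z ∈ B} := by
      ext z
      rw [Set.mem_smul_set_iff_inv_smul_mem₀ two_ne_zero, mem_ofPred_eq, smul_smul,
        mul_inv_cancel₀ two_ne_zero, one_smul, hg.smul _ (by norm_num), mem_inter_iff,
        mem_ofPred_eq]
      constructor
      · rintro ⟨h, h'⟩; exact ⟨by linarith, h⟩
      · rintro ⟨h, h'⟩; exact ⟨h', by linarith⟩
    rw [e, Measure.addHaar_smul, finrank_euclideanSpace_fin, abs_of_pos (by positivity)]
  calc ∑ i, volume {z : EuclideanSpace ℝ (Fin d) | g z ≤ r ∧ u i + z ∈ B}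
      = ∫⁻ y in B, f y := by
        rw [hf, lintegral_finsetSum _ (fun i _ => measurable_one.indicator (hCm i))]
        exact Finset.sum_congr rfl fun i _ => h1 i
    _ ≤ ∫⁻ y in B, (ENNReal.ofReal (ε / (2 * q)) * (f y * f y)
        + ENNReal.ofReal (q / (2 * ε)) * ({y | g y ≤ 2} : Set _).indicator 1 y) :=
        lintegral_mono hpt
    _ = (∫⁻ y in B, ENNReal.ofReal (ε / (2 * q)) * (f y * f y))
        + ∫⁻ y in B, ENNReal.ofReal (q / (2 * ε)) * ({y | g y ≤ 2} : Set _).indicator 1 y :=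
        lintegral_add_left (hff.const_mul _) _
    _ = ENNReal.ofReal (ε / (2 * q)) * (∫⁻ y in B, f y * f y)
        + ENNReal.ofReal (q / (2 * ε)) * volume (B ∩ {y : EuclideanSpace ℝ (Fin d) | g y ≤ 2}) := by
        rw [lintegral_const_mul _ hff,
          lintegral_const_mul _ (measurable_one.indicator (hg.ms 2)),
          lintegral_indicator_one (hg.ms 2), Measure.restrict_apply (hg.ms 2), inter_comm]
    _ ≤ ENNReal.ofReal (ε / (2 * q)) * (ENNReal.ofReal (q * (Fintype.card ι * r ^ d)) * V)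
        + ENNReal.ofReal (q / (2 * ε)) * (ENNReal.ofReal (2 ^ d)
        * volume {z : EuclideanSpace ℝ (Fin d) | g z ≤ 1 ∧ (2 : ℝ) • z ∈ B}) := by
        rw [h2B]
        gcongr
        exact (setLIntegral_le_lintegral _ _).trans hsq
    _ ≤ _ := by
        rw [← mul_assoc (ENNReal.ofReal (ε / (2 * q))), ← mul_assoc (ENNReal.ofReal (q / (2 * ε))),
          ← ENNReal.ofReal_mul (by positivity), ← ENNReal.ofReal_mul (by positivity)]
        refine add_le_add (le_of_eq ?_) ?_
        · congr 2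
          field_simp
        · refine mul_le_mul' (ENNReal.ofReal_le_ofReal ?_) le_rfl
          calc q / (2 * ε) * 2 ^ d = (q * 2 ^ d) / (2 * ε) := by ring
            _ ≤ (D * Fintype.card ι * r ^ d) / (2 * ε) := by gcongr
            _ = _ := by ring

end Family

end Pool.Agent.TH591.Ns
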