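import Mathlib
import Pool.Agent.TH591.Ns.Basic

set_option autoImplicit false

/-!
Few points of a spread-out family are in a thin slab; the total escape bound.
-/

namespace Pool.Agent.TH591.Ns

open MeasureTheory Set
open scoped ENNReal Pointwise NNReal

variable {d : ℕ} {g P : EuclideanSpace ℝ (Fin d) → ℝ}

/-- `φ` is `τ`-thin. -/
structure IsThinG (g : EuclideanSpace ℝ (Fin d) → ℝ) (τ : ℝ)
    (φ : EuclideanSpace ℝ (Fin d) →L[ℝ] ℝ) : Prop where
  le : ∀ y, φ y ≤ g y
  vol : volume {z : EuclideanSpace ℝ (Fin d) | g z ≤ 1 ∧ 1 / 4 ≤ |φ z|}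
    ≤ ENNReal.ofReal τ * volume {y : EuclideanSpace ℝ (Fin d) | g y ≤ 1}

variable {ι : Type*} [Fintype ι]

theorem count (hg : IsG g)
    (h0 : volume {y : EuclideanSpace ℝ (Fin d) | g y ≤ 1} ≠ 0)
    (hfin : volume {y : EuclideanSpace ℝ (Fin d) | g y ≤ 1} ≠ ⊤)
    (u : ι → EuclideanSpace ℝ (Fin d)) (hu : ∀ i, g (u i) ≤ 1) (r q D δ : ℝ)
    (hr0 : 0 < r) (hr1 : r ≤ 1) (hq0 : 0 < q) (hδ : 0 < δ)
    (hq : ∀ y : EuclideanSpace ℝ (Fin d),
      (∑ i : ι, if g (u i - y) ≤ r then (1 : ℝ) else 0) ≤ q)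
    (hD0 : 0 ≤ D)
    (hD : q * 2 ^ d ≤ D * Fintype.card ι * r ^ d)
    (φ : EuclideanSpace ℝ (Fin d) →L[ℝ] ℝ) (τ : ℝ) (hτ : 0 ≤ τ) (hτr : τ ≤ r ^ d / 2)
    (hDτ : D * τ ≤ δ ^ 2) (hφ : IsThinG g τ φ) :
    (∑ i, if 3 / 4 ≤ φ (u i) then (1 : ℝ) else 0) ≤ 2 * δ * Fintype.card ι := by
  classical
  set V := volume {y : EuclideanSpace ℝ (Fin d) | g y ≤ 1} with hV
  have hBm : MeasurableSet {y : EuclideanSpace ℝ (Fin d) | 1 / 2 ≤ φ y} :=
    (isClosed_le continuous_const φ.continuous).measurableSet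
  have h1 := transfer_eps hg hfin u hu r q D δ hr0 hr1 hq0 hδ hq hD _ hBm
  have e1 : volume {z : EuclideanSpace ℝ (Fin d) | g z ≤ 1 ∧
      (2 : ℝ) • z ∈ {y : EuclideanSpace ℝ (Fin d) | 1 / 2 ≤ φ y}} ≤ ENNReal.ofReal τ * V := by
    refine le_trans (measure_mono ?_) hφ.vol
    rintro z ⟨h, h'⟩
    rw [mem_ofPred_eq, map_smul, smul_eq_mul] at h'
    exact ⟨h, le_trans (by linarith) (le_abs_self _)⟩
  -- one point
  have hthm : MeasurableSet {z : EuclideanSpace ℝ (Fin d) | g z ≤ 1 ∧ 1 / 4 ≤ |φ z|} :=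
    ((isClosed_le hg.cont continuous_const).inter
      (isClosed_le continuous_const (continuous_abs.comp φ.continuous))).measurableSet
  have hone : ∀ i, 3 / 4 ≤ φ (u i) → ENNReal.ofReal (r ^ d / 2) * V
      ≤ volume {z : EuclideanSpace ℝ (Fin d) | g z ≤ r ∧
        u i + z ∈ {y : EuclideanSpace ℝ (Fin d) | 1 / 2 ≤ φ y}} := by
    intro i hi
    have h2 : volume {z : EuclideanSpace ℝ (Fin d) | g z ≤ r}
        ≤ volume {z : EuclideanSpace ℝ (Fin d) | g z ≤ r ∧
          u i + z ∈ {y : EuclideanSpace ℝ (Fin d) | 1 / 2 ≤ φ y}} + ENNReal.ofReal τ * V := by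
      refine le_trans (measure_mono ?_) ((measure_union_le _ _).trans
        (add_le_add le_rfl hφ.vol))
      intro z hz
      by_cases h : 1 / 4 ≤ |φ z|
      · exact Or.inr ⟨le_trans hz hr1, h⟩
      · left
        refine ⟨hz, ?_⟩
        rw [mem_ofPred_eq, map_add]
        have := (abs_lt.mp (not_le.mp h)).1
        linarith
    rw [vol_ball hg r hr0] at h2
    have h3 : ENNReal.ofReal (r ^ d / 2) * V + ENNReal.ofReal τ * V
        ≤ volume {z : EuclideanSpace ℝ (Fin d) | g z ≤ r ∧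
          u i + z ∈ {y : EuclideanSpace ℝ (Fin d) | 1 / 2 ≤ φ y}} + ENNReal.ofReal τ * V := by
      refine le_trans ?_ h2
      rw [← add_mul, ← ENNReal.ofReal_add (by positivity) hτ]
      gcongr
      linarith
    exact (ENNReal.add_le_add_iff_right (ENNReal.mul_ne_top ENNReal.ofReal_ne_top hfin)).mp h3
  have h2 : ENNReal.ofReal (∑ i, if 3 / 4 ≤ φ (u i) then (1 : ℝ) else 0)
      * (ENNReal.ofReal (r ^ d / 2) * V)
      ≤ ENNReal.ofReal (2 * δ * Fintype.card ι) * (ENNReal.ofReal (r ^ d / 2) * V) := by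
    rw [ENNReal.ofReal_sum_of_nonneg (fun i _ => by split_ifs <;> norm_num), Finset.sum_mul]
    calc ∑ i, ENNReal.ofReal (if 3 / 4 ≤ φ (u i) then (1 : ℝ) else 0)
          * (ENNReal.ofReal (r ^ d / 2) * V)
        ≤ ∑ i, volume {z : EuclideanSpace ℝ (Fin d) | g z ≤ r ∧
          u i + z ∈ {y : EuclideanSpace ℝ (Fin d) | 1 / 2 ≤ φ y}} := by
          refine Finset.sum_le_sum fun i _ => ?_
          split_ifs with h
          · rw [ENNReal.ofReal_one, one_mul]
            exact hone i h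
          · simp
      _ ≤ _ := h1
      _ ≤ ENNReal.ofReal (δ / 2 * (Fintype.card ι * r ^ d)) * V
          + ENNReal.ofReal (D / (2 * δ) * (Fintype.card ι * r ^ d)) * (ENNReal.ofReal τ * V) := by
          gcongr
      _ ≤ _ := by
          have e5 : ENNReal.ofReal (D / (2 * δ) * (Fintype.card ι * r ^ d))
              * (ENNReal.ofReal τ * V)
              = ENNReal.ofReal (D / (2 * δ) * (Fintype.card ι * r ^ d) * τ) * V := by
            rw [← mul_assoc, ← ENNReal.ofReal_mul (by positivity)]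
          have e6 : ENNReal.ofReal (2 * δ * Fintype.card ι) * (ENNReal.ofReal (r ^ d / 2) * V)
              = ENNReal.ofReal (2 * δ * Fintype.card ι * (r ^ d / 2)) * V := by
            rw [← mul_assoc, ← ENNReal.ofReal_mul (by positivity)]
          rw [e5, e6, ← add_mul, ← ENNReal.ofReal_add (by positivity) (by positivity)]
          refine mul_le_mul' (ENNReal.ofReal_le_ofReal ?_) le_rfl
          have h5 : D / (2 * δ) * (Fintype.card ι * r ^ d) * τ
              ≤ δ / 2 * (Fintype.card ι * r ^ d) := by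
            calc D / (2 * δ) * (Fintype.card ι * r ^ d) * τ
                = (D * τ) / (2 * δ) * (Fintype.card ι * r ^ d) := by ring
              _ ≤ δ ^ 2 / (2 * δ) * (Fintype.card ι * r ^ d) := by gcongr
              _ = _ := by field_simp
          linarith
  have hrV0 : ENNReal.ofReal (r ^ d / 2) * V ≠ 0 :=
    mul_ne_zero (ENNReal.ofReal_pos.mpr (by positivity)).ne' h0
  have hrVt : ENNReal.ofReal (r ^ d / 2) * V ≠ ⊤ := ENNReal.mul_ne_top ENNReal.ofReal_ne_top hfin
  rw [ENNReal.mul_le_mul_iff_left hrV0 hrVt, ENNReal.ofReal_le_ofReal_iff (by positivity)] at h2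
  exact h2

/-- total escape bound -/
theorem escape (hg : IsG g) (hP : IsP g P)
    (h0 : volume {y : EuclideanSpace ℝ (Fin d) | g y ≤ 1} ≠ 0)
    (hfin : volume {y : EuclideanSpace ℝ (Fin d) | g y ≤ 1} ≠ ⊤)
    (u : ι → EuclideanSpace ℝ (Fin d)) (hu : ∀ i, g (u i) ≤ 1) (q D δ : ℝ)
    (hd : 1 < d) (hq0 : 0 < q) (hδ : 0 < δ)
    (hq : ∀ y : EuclideanSpace ℝ (Fin d),
      (∑ i : ι, if g (u i - y) ≤ 1 - 1 / (d : ℝ) then (1 : ℝ) else 0) ≤ q)
    (hD0 : 0 ≤ D)
    (hD : q * 2 ^ d ≤ D * Fintype.card ι * (1 - 1 / (d : ℝ)) ^ d)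
    (τ : ℝ) (hτ : 0 ≤ τ) (hτr : τ ≤ (1 - 1 / (d : ℝ)) ^ d / 2) (hDτ : D * τ ≤ δ ^ 2)
    (hmax : ∀ x : EuclideanSpace ℝ (Fin d), ∀ η : ℝ, 0 < η →
      ∃ φ : EuclideanSpace ℝ (Fin d) →L[ℝ] ℝ, P x - η ≤ φ x ∧ IsThinG g τ φ)
    (k : ℕ) (hk : 0 < k) (hkd : 8 * (k : ℝ) / d ≤ 1) :
    ∑ i, volume {z : EuclideanSpace ℝ (Fin d) | g z ≤ 1 - 1 / (d : ℝ) ∧
        2 * (1 - k / d) < P (u i + z)}
      ≤ ENNReal.ofReal (2 * δ * Fintype.card ι * (1 + 8 * (k : ℝ) / d) ^ d)
        * volume {y : EuclideanSpace ℝ (Fin d) | g y ≤ 1} := by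
  classical
  have hd' : (1 : ℝ) < d := by exact_mod_cast hd
  have hd0 : (0 : ℝ) < d := by linarith
  have hk' : (0 : ℝ) < k := by exact_mod_cast hk
  have hr0 : 0 < 1 - 1 / (d : ℝ) := by
    rw [sub_pos, div_lt_one (by linarith)]; exact hd'
  have hr1 : 1 - 1 / (d : ℝ) ≤ 1 := by
    have : 0 < 1 / (d : ℝ) := by positivity
    linarith
  set r := 1 - 1 / (d : ℝ) with hr
  set t : ℝ := 8 * (k : ℝ) / d with ht
  have ht0 : 0 < t := by positivity
  set C : ℝ := 2 * δ * Fintype.card ι with hC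
  have hC0 : 0 ≤ C := by positivity
  set G : ι → Set (EuclideanSpace ℝ (Fin d)) := fun i =>
    {z | g z ≤ r ∧ 2 * (1 - k / d) < P (u i + z)} with hG
  have hGm : ∀ i, MeasurableSet (G i) := fun i =>
    (isClosed_le hg.cont continuous_const).measurableSet.inter
      (isOpen_lt continuous_const (hP.cont.comp (continuous_const.add continuous_id))).measurableSet
  set W : ι → Set (EuclideanSpace ℝ (Fin d)) := fun i =>
    (fun w => w + (-(t • u i))) ⁻¹' G i with hW
  have hWm : ∀ i, MeasurableSet (W i) := fun i => (hGm i).preimage (measurable_add_const _)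
  have hvol : ∀ i, volume (G i) = volume (W i) := fun i =>
    (measure_preimage_add_right volume (-(t • u i)) (G i)).symm
  have hBm : MeasurableSet {w : EuclideanSpace ℝ (Fin d) | g w ≤ 1 + t} := hg.ms _
  have hpt : ∀ w, ∑ i, (W i).indicator (1 : EuclideanSpace ℝ (Fin d) → ℝ≥0∞) w
      ≤ ({w : EuclideanSpace ℝ (Fin d) | g w ≤ 1 + t}).indicator (fun _ => ENNReal.ofReal C) w := by
    intro w
    by_cases hex : ∃ i, w ∈ W i
    · obtain ⟨i₀, hi₀⟩ := hex
      have hpw : g w ≤ 1 + t := by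
        have h1 : g (w + -(t • u i₀)) ≤ r := hi₀.1
        calc g w = g ((w + -(t • u i₀)) + t • u i₀) := by congr 1; abel
          _ ≤ g (w + -(t • u i₀)) + g (t • u i₀) := hg.add _ _
          _ = g (w + -(t • u i₀)) + t * g (u i₀) := by rw [hg.smul _ ht0.le]
          _ ≤ r + t * 1 := by gcongr; exact hu i₀
          _ ≤ 1 + t := by linarith
      rw [indicator_of_mem (show w ∈ {w : EuclideanSpace ℝ (Fin d) | g w ≤ 1 + t} from hpw)]
      obtain ⟨φ, hφ2, hφ3⟩ := hmax w (1 / d) (by positivity)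
      have hcount := count hg h0 hfin u hu r q D δ hr0 hr1 hq0 hδ hq hD0 hD φ τ hτ hτr hDτ hφ3
      refine le_trans ?_ (ENNReal.ofReal_le_ofReal hcount)
      rw [ENNReal.ofReal_sum_of_nonneg (fun i _ => by split_ifs <;> norm_num)]
      refine Finset.sum_le_sum fun i _ => ?_
      by_cases hi : w ∈ W i
      · rw [indicator_of_mem hi, if_pos]
        · simp
        · have h1 : g (w + -(t • u i)) ≤ r := hi.1
          have h2 : 2 * (1 - k / d) < P (u i + (w + -(t • u i))) := hi.2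
          have h3 : P (u i + (w + -(t • u i))) ≤ P w + (1 - t) := by
            have e : u i + (w + -(t • u i)) = w + (1 - t) • u i := by
              rw [sub_smul, one_smul]; abel
            calc P (u i + (w + -(t • u i))) = P (w + (1 - t) • u i) := by rw [e]
              _ ≤ P w + P ((1 - t) • u i) := hP.add _ _
              _ = P w + (1 - t) * P (u i) := by rw [hP.smul _ (by linarith)]
              _ ≤ P w + (1 - t) * 1 :=
                add_le_add le_rfl (mul_le_mul_of_nonneg_left ((hP.le _).trans (hu i)) (by linarith))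
              _ = _ := by ring
          have h4 : φ w ≤ r + t * φ (u i) := by
            have e : w = (w + -(t • u i)) + t • u i := by abel
            calc φ w = φ ((w + -(t • u i)) + t • u i) := by rw [← e]
              _ = φ (w + -(t • u i)) + t * φ (u i) := by
                rw [map_add, map_smul, smul_eq_mul]
              _ ≤ _ := by
                gcongr
                exact (hφ3.le _).trans h1
          have h5 : 1 + 3 * t / 4 < P w := by
            have : 2 * (1 - (k : ℝ) / d) = 2 - t / 4 := by rw [ht]; ring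
            linarith
          have h6 : t * (3 / 4) ≤ t * φ (u i) := by
            rw [hr] at h4
            linarith
          exact le_of_mul_le_mul_left h6 ht0
      · rw [indicator_of_notMem hi]
        exact zero_le
    · push Not at hex
      rw [Finset.sum_eq_zero (fun i _ => indicator_of_notMem (hex i) _)]
      exact zero_le
  calc ∑ i, volume (G i) = ∑ i, ∫⁻ w, (W i).indicator 1 w := by
        refine Finset.sum_congr rfl fun i _ => ?_
        rw [hvol, lintegral_indicator_one (hWm i)]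
    _ = ∫⁻ w, ∑ i, (W i).indicator 1 w := by
        rw [lintegral_finsetSum]
        intro i _
        exact measurable_one.indicator (hWm i)
    _ ≤ ∫⁻ w, ({w : EuclideanSpace ℝ (Fin d) | g w ≤ 1 + t}).indicator
          (fun _ => ENNReal.ofReal C) w := lintegral_mono hpt
    _ = ENNReal.ofReal C * volume {w : EuclideanSpace ℝ (Fin d) | g w ≤ 1 + t} := by
        rw [lintegral_indicator hBm, setLIntegral_const]
    _ = _ := by
        rw [vol_ball hg (1 + t) (by linarith), ← mul_assoc, ← ENNReal.ofReal_mul hC0]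

end Pool.Agent.TH591.Ns
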