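import Mathlib
import Pool.Agent.TH591.Ns.Escape

set_option autoImplicit false

/-!
The core contradiction and the covering bound for convex bodies with thin supporting slabs.
-/

namespace Pool.Agent.TH591.Ns

open MeasureTheory Set
open scoped ENNReal Pointwise NNReal
open Pool.Agent.H815R2.Thin (rd_le num_a)
open Pool.Agent.H815R2.Flat (quarter_le)

variable {d : ℕ} {g P : EuclideanSpace ℝ (Fin d) → ℝ}

/-- The numerical inequality for the escape term. -/
theorem num_esc (x lam τ : ℝ) (k : ℕ) (hlam : 1 ≤ lam) (hx : lam ≤ x)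
    (hk : (k : ℝ) ≤ 2.2 * x + 1) (hτ : τ ≤ Real.exp (-(60 * x))) :
    Real.exp lam / 3 * τ ≤ Real.exp (-(59 / 2 * x)) ^ 2 ∧
    8 * Real.exp (-(59 / 2 * x)) * Real.exp (8 * k) ≤ 0.31 := by
  constructor
  · calc Real.exp lam / 3 * τ ≤ Real.exp lam / 3 * Real.exp (-(60 * x)) := by gcongr
      _ ≤ Real.exp lam * Real.exp (-(60 * x)) := by
          have := Real.exp_pos lam
          have := Real.exp_pos (-(60 * x))
          have h3 : 0 < Real.exp lam * Real.exp (-(60 * x)) := by positivity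
          linarith
      _ = Real.exp (lam + -(60 * x)) := (Real.exp_add _ _).symm
      _ ≤ Real.exp (-(59 * x)) := by
          apply Real.exp_le_exp.mpr
          linarith
      _ = Real.exp (-(59 / 2 * x)) ^ 2 := by
          rw [← Real.exp_nat_mul]
          congr 1
          push_cast
          ring
  · have h1 : Real.exp (-(59 / 2 * x)) * Real.exp (8 * k) ≤ Real.exp (-3.9) := by
      rw [← Real.exp_add]
      apply Real.exp_le_exp.mpr
      linarith
    have h2 : Real.exp (-3.9) ≤ 0.0275 := by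
      have e : (-3.9 : ℝ) = -1 + -1 + -1 + -0.9 := by norm_num
      rw [e, Real.exp_add, Real.exp_add, Real.exp_add]
      have h3 := Real.exp_neg_one_lt_d9
      have h5 := Real.exp_pos (-1 : ℝ)
      have h6 := Real.exp_pos (-0.9 : ℝ)
      have h7 : Real.exp (-1) ≤ 0.368 := by linarith
      have h4 : Real.exp (-0.9) ≤ 1 / 1.9 := by
        rw [Real.exp_neg, ← one_div]
        apply one_div_le_one_div_of_le (by norm_num)
        have := Real.add_one_le_exp (0.9 : ℝ)
        linarith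
      have h8 : Real.exp (-1) * Real.exp (-1) * Real.exp (-1) * Real.exp (-0.9)
          ≤ 0.368 * 0.368 * 0.368 * (1 / 1.9) := by
        gcongr
      have h9 : (0.368 * 0.368 * 0.368 * (1 / 1.9) : ℝ) ≤ 0.0275 := by norm_num
      exact h8.trans h9
    have h10 : 8 * Real.exp (-(59 / 2 * x)) * Real.exp (8 * k)
        = 8 * (Real.exp (-(59 / 2 * x)) * Real.exp (8 * k)) := by ring
    rw [h10]
    have h11 := h1.trans h2
    have h12 : (8 * 0.0275 : ℝ) ≤ 0.31 := by norm_num
    linarith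

/-- The core contradiction. -/
theorem core {ι : Type*} [Fintype ι] [Nonempty ι] (hd : 2 ≤ d)
    (hg : IsG g) (hP : IsP g P)
    (h0 : volume {y : EuclideanSpace ℝ (Fin d) | g y ≤ 1} ≠ 0)
    (hfin : volume {y : EuclideanSpace ℝ (Fin d) | g y ≤ 1} ≠ ⊤)
    (β τ lam : ℝ) (hβ0 : 0 < β) (hβ1 : β ≤ 1) (hτ : 0 ≤ τ)
    (hτ2 : τ ≤ Real.exp (-(60 * (lam / β))))
    (hS : ENNReal.ofReal β * volume {y : EuclideanSpace ℝ (Fin d) | g y ≤ 1}
      ≤ volume {z : EuclideanSpace ℝ (Fin d) | g z ≤ 1 ∧ g z ≤ P z})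
    (hmax : ∀ x : EuclideanSpace ℝ (Fin d), ∀ η : ℝ, 0 < η →
      ∃ φ : EuclideanSpace ℝ (Fin d) →L[ℝ] ℝ, P x - η ≤ φ x ∧ IsThinG g τ φ)
    (u : ι → EuclideanSpace ℝ (Fin d)) (hu : ∀ i, g (u i) ≤ 1) (θ : ℝ)
    (hθ : θ = Real.exp lam / 3 * ((1 - 1 / (d : ℝ)) / 2) ^ d)
    (hq : ∀ y : EuclideanSpace ℝ (Fin d),
      (∑ i : ι, if g (u i - y) ≤ 1 - 1 / (d : ℝ) then (1 : ℝ) else 0) ≤ θ * Fintype.card ι) :
    False := by
  classical
  set V := volume {y : EuclideanSpace ℝ (Fin d) | g y ≤ 1} with hV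
  have hd' : (2 : ℝ) ≤ d := by exact_mod_cast hd
  have hd1 : 1 < d := by omega
  have hrdle := rd_le d hd
  have hrdge := quarter_le d hd
  set r : ℝ := 1 - 1 / (d : ℝ) with hr
  have hdi : 1 / (d : ℝ) ≤ 1 / 2 := one_div_le_one_div_of_le (by norm_num) hd'
  have hdi0 : 0 < 1 / (d : ℝ) := by positivity
  have hr0 : 0 < r := by rw [hr]; linarith
  have hr1 : r ≤ 1 := by rw [hr]; linarith
  set D : ℝ := Real.exp lam / 3 with hD
  have hD0 : 0 < D := by positivity
  have hm : (0 : ℝ) < Fintype.card ι := by exact_mod_cast Fintype.card_pos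
  have hqD : θ * Fintype.card ι * 2 ^ d = D * Fintype.card ι * r ^ d := by
    rw [hθ, div_pow]
    field_simp
  have hq0 : 0 < θ * Fintype.card ι := by
    rw [hθ]; positivity
  -- D ≥ 1
  have hD1 : 1 ≤ D := by
    have h1 := transfer_eps hg hfin u hu r _ D 1 hr0 hr1 hq0 one_pos hq hqD.le univ
      MeasurableSet.univ
    have e1 : ∀ i, {z : EuclideanSpace ℝ (Fin d) | g z ≤ r ∧ u i + z ∈ (univ : Set _)}
        = {z | g z ≤ r} := by
      intro i; ext z; simp
    have e2 : {z : EuclideanSpace ℝ (Fin d) | g z ≤ 1 ∧ (2 : ℝ) • z ∈ (univ : Set _)}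
        = {z | g z ≤ 1} := by
      ext z; simp
    simp only [e1, e2, Finset.sum_const, nsmul_eq_mul, Finset.card_univ] at h1
    rw [vol_ball hg r hr0, ← add_mul, ← mul_assoc, ENNReal.mul_le_mul_iff_left h0 hfin,
      ← ENNReal.ofReal_natCast, ← ENNReal.ofReal_mul (by positivity),
      ← ENNReal.ofReal_add (by positivity) (by positivity),
      ENNReal.ofReal_le_ofReal_iff (by positivity)] at h1
    have h2 : 0 < (Fintype.card ι : ℝ) * r ^ d := by positivity
    have h3 : 1 * ((Fintype.card ι : ℝ) * r ^ d)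
        ≤ (1 / 2 + D / 2) * ((Fintype.card ι : ℝ) * r ^ d) := by
      refine le_trans (by linarith) (h1.trans (le_of_eq ?_))
      ring
    have h4 := le_of_mul_le_mul_right h3 h2
    linarith
  have hlam1 : 1 ≤ lam := by
    by_contra hcon
    push Not at hcon
    have h1 : Real.exp lam < Real.exp 1 := Real.exp_lt_exp.mpr hcon
    have h2 := Real.exp_one_lt_d9
    rw [hD, le_div_iff₀ (by norm_num)] at hD1
    linarith
  set x : ℝ := lam / β with hx
  have hxlam : lam ≤ x := by
    rw [hx, le_div_iff₀ hβ0]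
    nlinarith
  have hx1 : 1 ≤ x := hlam1.trans hxlam
  have hτ8 : τ ≤ 1 / 8 := by
    refine hτ2.trans ?_
    have h1 : Real.exp (-(60 * x)) ≤ Real.exp (-1) ^ 60 := by
      rw [← Real.exp_nat_mul]
      apply Real.exp_le_exp.mpr
      push_cast
      linarith
    have h2 : Real.exp (-1) ≤ 1 / 2 := by
      have := Real.exp_neg_one_lt_d9
      linarith
    calc Real.exp (-(60 * x)) ≤ Real.exp (-1) ^ 60 := h1
      _ ≤ (1 / 2) ^ 60 := by
          have := Real.exp_pos (-1 : ℝ)
          gcongr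
      _ ≤ 1 / 8 := by norm_num
  have hτr : τ ≤ r ^ d / 2 := by linarith
  -- a point supported by a thin functional
  have hlow : 1 ≤ 4 * (2 ^ d * τ) := by
    have hne : ({z : EuclideanSpace ℝ (Fin d) | g z ≤ 1 ∧ g z ≤ P z} \ {z | g z ≤ r}).Nonempty := by
      apply MeasureTheory.nonempty_of_measure_ne_zero (μ := volume)
      rw [cone_diff hd1 hg hP hfin]
      apply mul_ne_zero
      · apply (ENNReal.ofReal_pos.mpr _).ne'
        linarith
      · intro h
        rw [h] at hS
        have : ENNReal.ofReal β * V ≠ 0 := mul_ne_zero (ENNReal.ofReal_pos.mpr hβ0).ne' h0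
        exact this (le_antisymm hS zero_le)
    obtain ⟨z, ⟨hz1, hz2⟩, hz3⟩ := hne
    have hz4 : 0 < g z := by
      by_contra h
      apply hz3
      show g z ≤ r
      linarith
    set a := (g z)⁻¹ • z with ha
    have hpa : g a = 1 := by
      rw [ha, hg.smul _ (by positivity), inv_mul_cancel₀ hz4.ne']
    have hPa : 1 ≤ P a := by
      rw [ha, hP.smul _ (by positivity)]
      rw [le_inv_mul_iff₀ hz4, mul_one]
      exact hz2
    obtain ⟨φ, hφ2, hφ3⟩ := hmax a (1 / 4) (by norm_num)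
    have hδ0 : ∀ δ : ℝ, 0 < δ → 2 ^ d * τ ≤ δ ^ 2 → 1 ≤ 2 * δ := by
      intro δ hδ hδ2
      have h1 := count (ι := Unit) hg h0 hfin (fun _ => a) (fun _ => hpa.le) 1 1 (2 ^ d) δ
        one_pos le_rfl one_pos hδ
        (by
          intro y
          simp only [Finset.univ_unique, Finset.sum_singleton]
          split_ifs <;> norm_num)
        (by positivity) (by simp) φ τ hτ (by rw [one_pow]; linarith) hδ2 hφ3
      simp only [Finset.univ_unique, Finset.sum_singleton, Fintype.card_unit, Nat.cast_one,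
        mul_one] at h1
      rwa [if_pos (by linarith)] at h1
    by_contra hcon
    push Not at hcon
    -- take `δ` slightly larger than the square root
    have h2 : 0 ≤ 2 ^ d * τ := by positivity
    have h3 := hδ0 (√((2 ^ d * τ + 1 / 4) / 2)) (Real.sqrt_pos.mpr (by positivity)) (by
      rw [Real.sq_sqrt (by positivity)]
      linarith)
    have h4 : √((2 ^ d * τ + 1 / 4) / 2) < 1 / 2 := by
      rw [Real.sqrt_lt' (by norm_num)]
      linarith
    linarith
  have h60 : 60 * x ≤ (d + 2) * 0.6932 := by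
    have h1 : 1 ≤ 4 * (2 ^ d * Real.exp (-(60 * x))) := by
      refine hlow.trans ?_
      gcongr
    have h2 : Real.exp (60 * x) ≤ 2 ^ (d + 2) := by
      rw [Real.exp_neg] at h1
      have h3 := Real.exp_pos (60 * x)
      have h4 : 1 * Real.exp (60 * x)
          ≤ 4 * (2 ^ d * (Real.exp (60 * x))⁻¹) * Real.exp (60 * x) := by
        gcongr
      rw [mul_assoc, mul_assoc, inv_mul_cancel₀ h3.ne', mul_one, one_mul] at h4
      rw [pow_add]
      linarith
    have h3 : 60 * x ≤ Real.log (2 ^ (d + 2)) := by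
      rw [Real.le_log_iff_exp_le (by positivity)]
      exact h2
    rw [Real.log_pow] at h3
    push_cast at h3
    refine h3.trans ?_
    have := Real.log_two_lt_d9
    gcongr
    linarith
  -- parameters
  set k : ℕ := ⌈2.2 * x⌉₊ with hk
  have hk0 : 0 < k := Nat.ceil_pos.mpr (by linarith)
  have hkge : 2.2 * x ≤ k := Nat.le_ceil _
  have hkle : (k : ℝ) ≤ 2.2 * x + 1 := (Nat.ceil_lt_add_one (by linarith)).le
  have hkd : 8 * (k : ℝ) / d ≤ 1 := by
    rw [div_le_one (by linarith)]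
    linarith
  set κ : ℝ := 1 - β * (1 - r ^ d) with hκ
  have hκ0 : 0 ≤ κ := by
    have : β * (1 - r ^ d) ≤ 1 * 1 := by
      gcongr
      · linarith
      · have : 0 < r ^ d := by positivity
        linarith
    rw [hκ]; linarith
  have hκle : κ ≤ 1 - β * 0.632 := by
    rw [hκ]
    have : β * 0.632 ≤ β * (1 - r ^ d) := by
      gcongr
      linarith
    linarith
  have hA := drop hd1 hg hP hfin β hβ0.le hβ1 hS k
  have hmB : MeasurableSet {y : EuclideanSpace ℝ (Fin d) | P y ≤ 2 * (1 - k / d)} :=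
    (isClosed_le hP.cont continuous_const).measurableSet
  have hstay := transfer_eps hg hfin u hu r _ D (1 / 2) hr0 hr1 hq0 (by norm_num) hq hqD.le _ hmB
  have e1 : {z : EuclideanSpace ℝ (Fin d) | g z ≤ 1 ∧
      (2 : ℝ) • z ∈ {y : EuclideanSpace ℝ (Fin d) | P y ≤ 2 * (1 - k / d)}}
      = {z : EuclideanSpace ℝ (Fin d) | g z ≤ 1 ∧ P z ≤ 1 - k / d} := by
    ext z
    simp only [mem_ofPred_eq]
    rw [hP.smul _ (by norm_num : (0 : ℝ) ≤ 2),
      mul_le_mul_iff_right₀ (by norm_num : (0 : ℝ) < 2)]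
  rw [e1] at hstay
  obtain ⟨hnb1, hnb2⟩ := num_esc x lam τ k hlam1 hxlam hkle hτ2
  set δ : ℝ := Real.exp (-(59 / 2 * x)) with hδ
  have hδ0 : 0 < δ := Real.exp_pos _
  have hesc := escape hg hP h0 hfin u hu _ D δ hd1 hq0 hδ0 hq hD0.le hqD.le τ hτ hτr hnb1 hmax k
    hk0 hkd
  -- combine
  have hcomb : (Fintype.card ι : ℝ≥0∞) * (ENNReal.ofReal (r ^ d) * V)
      ≤ (∑ i, volume {z : EuclideanSpace ℝ (Fin d) | g z ≤ r ∧
          u i + z ∈ {y : EuclideanSpace ℝ (Fin d) | P y ≤ 2 * (1 - k / d)}})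
        + ∑ i, volume {z : EuclideanSpace ℝ (Fin d) | g z ≤ r ∧
          2 * (1 - k / d) < P (u i + z)} := by
    rw [← Finset.sum_add_distrib, ← vol_ball hg r hr0]
    calc (Fintype.card ι : ℝ≥0∞) * volume {z : EuclideanSpace ℝ (Fin d) | g z ≤ r}
        = ∑ _i : ι, volume {z : EuclideanSpace ℝ (Fin d) | g z ≤ r} := by
          rw [Finset.sum_const, nsmul_eq_mul, Finset.card_univ]
      _ ≤ _ := by
          refine Finset.sum_le_sum fun i _ => ?_
          refine le_trans (measure_mono ?_) (measure_union_le _ _)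
          intro z hz
          rcases le_or_gt (P (u i + z)) (2 * (1 - k / d)) with h | h
          · exact Or.inl ⟨hz, h⟩
          · exact Or.inr ⟨hz, h⟩
  have htot : ENNReal.ofReal (Fintype.card ι * r ^ d) * V
      ≤ ENNReal.ofReal (1 / 2 / 2 * (Fintype.card ι * r ^ d)
        + D / (2 * (1 / 2)) * (Fintype.card ι * r ^ d) * κ ^ k
        + 2 * δ * Fintype.card ι * (1 + 8 * (k : ℝ) / d) ^ d) * V := by
    rw [ENNReal.ofReal_add (by positivity) (by positivity),
      ENNReal.ofReal_add (by positivity) (by positivity), add_mul, add_mul]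
    calc ENNReal.ofReal (Fintype.card ι * r ^ d) * V
        = (Fintype.card ι : ℝ≥0∞) * (ENNReal.ofReal (r ^ d) * V) := by
          rw [ENNReal.ofReal_mul hm.le, ENNReal.ofReal_natCast, mul_assoc]
      _ ≤ _ := hcomb
      _ ≤ (ENNReal.ofReal (1 / 2 / 2 * (Fintype.card ι * r ^ d)) * V
          + ENNReal.ofReal (D / (2 * (1 / 2)) * (Fintype.card ι * r ^ d))
            * (ENNReal.ofReal (κ ^ k) * V))
          + ENNReal.ofReal (2 * δ * Fintype.card ι * (1 + 8 * (k : ℝ) / d) ^ d) * V :=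
          add_le_add (hstay.trans (add_le_add le_rfl (mul_le_mul' le_rfl hA))) hesc
      _ = _ := by
          rw [← mul_assoc (ENNReal.ofReal (D / (2 * (1 / 2)) * (Fintype.card ι * r ^ d))),
            ← ENNReal.ofReal_mul (by positivity)]
  rw [ENNReal.mul_le_mul_iff_left h0 hfin, ENNReal.ofReal_le_ofReal_iff (by positivity)] at htot
  have hexp : (1 + 8 * (k : ℝ) / d) ^ d ≤ Real.exp (8 * k) := by
    have h1 : 1 + 8 * (k : ℝ) / d ≤ Real.exp (8 * k / d) := by
      have := Real.add_one_le_exp (8 * (k : ℝ) / d)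
      linarith
    calc (1 + 8 * (k : ℝ) / d) ^ d ≤ (Real.exp (8 * k / d)) ^ d := by gcongr
      _ = Real.exp (8 * k) := by
        rw [← Real.exp_nat_mul]; congr 1; field_simp
  have hna := num_a β lam κ k hβ0 hlam1 hκ0 hκle hkge
  have h5 : 2 * δ * Fintype.card ι * (1 + 8 * (k : ℝ) / d) ^ d
      ≤ 0.31 * (Fintype.card ι * r ^ d) := by
    calc 2 * δ * Fintype.card ι * (1 + 8 * (k : ℝ) / d) ^ d
        ≤ 2 * δ * Fintype.card ι * Real.exp (8 * k) := by gcongr
      _ = (8 * δ * Real.exp (8 * k)) * Fintype.card ι * (1 / 4) := by ring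
      _ ≤ 0.31 * Fintype.card ι * r ^ d := by gcongr
      _ = _ := by ring
  have h6 : D / (2 * (1 / 2)) * (Fintype.card ι * r ^ d) * κ ^ k
      ≤ 0.24 * (Fintype.card ι * r ^ d) := by
    calc D / (2 * (1 / 2)) * (Fintype.card ι * r ^ d) * κ ^ k
        = (D * κ ^ k) * (Fintype.card ι * r ^ d) := by ring
      _ ≤ _ := by gcongr
  have h7 : 0 < (Fintype.card ι : ℝ) * r ^ d := by positivity
  linarith

end Pool.Agent.TH591.Ns
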