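import Mathlib
import Pool.Agent.TH591.Ns.Main

set_option autoImplicit false

/-!
The covering bound for convex bodies with thin supporting slabs.
-/

namespace Pool.Agent.TH591.Ns

open MeasureTheory Set Module
open scoped ENNReal Pointwise NNReal
open Pool.Agent.H2R2.Cov (exists_reflect exists_net)
open Pool.Agent.H815R2.Flat (quarter_le)

/-- The covering theorem with parameters. -/
theorem cover_of_share {E : Type*} [NormedAddCommGroup E] [NormedSpace ℝ E]
    [FiniteDimensional ℝ E] (K : Set E) (hK : Convex ℝ K) (hKc : IsCompact K)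
    (hKi : (interior K).Nonempty) (hd : 1 ≤ finrank ℝ E) (l η θ : ℝ) (hl : 0 < l) (hη : 0 < η)
    (hρ : l + η + η * finrank ℝ E < 1) (hθ0 : 0 < θ) (hθ1 : θ ≤ 1)
    (hshare : ∀ A : Finset E, (∀ x ∈ A, x ∈ K) → A.Nonempty →
      ∃ t, θ * A.card ≤ ((open Classical in A.filter (fun x => x - t ∈ l • K)).card : ℝ)) :
    ∃ T : Finset E, K ⊆ ⋃ t ∈ T, (fun x => t + x) '' interior K ∧
      (T.card : ℝ) ≤ 1 + (finrank ℝ E * Real.log (1 + 1 / η)) / θ := by
  classical
  set d := finrank ℝ E with hdd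
  have hd0 : (0 : ℝ) < d := by exact_mod_cast hd
  obtain ⟨c, hc⟩ := exists_reflect K hK hKc hKi hd
  obtain ⟨S, hSK, hSnet, hScard⟩ := exists_net K hK hKc hKi η hη
  have hgreedy := Pool.Agent.H815R2.Had.greedy_cover (S := S) (E := E)
    (fun t s => (s : E) - t ∈ l • K) θ hθ0 hθ1
    (by
      intro A hA
      obtain ⟨t, ht⟩ := hshare (A.map (Function.Embedding.subtype _))
        (by
          intro x hx
          rw [Finset.mem_map] at hx
          obtain ⟨a, _, rfl⟩ := hx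
          exact hSK _ a.2) (hA.map)
      refine ⟨t, ?_⟩
      rw [Finset.card_map] at ht
      refine ht.trans (le_of_eq ?_)
      rw [Finset.filter_map, Finset.card_map]
      norm_cast)
    ((1 + 1 / η) ^ d) (by
      rw [Fintype.card_coe]; exact hScard) (one_le_pow₀ (by
        have : 0 < 1 / η := by positivity
        linarith))
  obtain ⟨Y, hYcard, hY⟩ := hgreedy
  obtain ⟨z₀, hz₀⟩ := hKi
  set ρ := l + η + η * d with hρdef
  have hρ0 : 0 < ρ := by positivity
  refine ⟨Y.image (fun t => t - (η * (d + 1)) • c - (1 - ρ) • z₀), ?_, ?_⟩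
  · intro y hy
    obtain ⟨x, hxS, k, hk, k', hk', hyx⟩ := hSnet y hy
    obtain ⟨t, htY, ht⟩ := hY ⟨x, hxS⟩
    obtain ⟨k₁, hk₁, hk₁'⟩ := ht
    obtain ⟨k₂, hk₂, hk₂'⟩ := hc k' hk'
    simp only at hk₁'
    -- convex combination
    have hcomb : (l / ρ) • k₁ + (η / ρ) • k + (η * d / ρ) • k₂ ∈ K := by
      have h1 := hK.sum_mem (t := (Finset.univ : Finset (Fin 3)))
        (w := ![l / ρ, η / ρ, η * d / ρ]) (z := ![k₁, k, k₂])
        (by intro i _; fin_cases i <;> simp <;> positivity)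
        (by
          simp [Fin.sum_univ_three]
          field_simp
          rw [hρdef])
        (by intro i _; fin_cases i <;> simp [hk₁, hk, hk₂])
      simpa [Fin.sum_univ_three] using h1
    set k₃ := (l / ρ) • k₁ + (η / ρ) • k + (η * d / ρ) • k₂ with hk₃
    have hρk₃ : ρ • k₃ = l • k₁ + η • k + (η * d) • k₂ := by
      rw [hk₃]
      simp only [smul_add, smul_smul]
      rw [mul_div_cancel₀ _ hρ0.ne', mul_div_cancel₀ _ hρ0.ne', mul_div_cancel₀ _ hρ0.ne']
    have hint : (1 - ρ) • z₀ + ρ • k₃ ∈ interior K := by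
      refine hK.combo_interior_self_subset_interior (a := 1 - ρ) (b := ρ) (by linarith) hρ0.le
        (by ring) ?_
      exact Set.add_mem_add (Set.smul_mem_smul_set hz₀) (Set.smul_mem_smul_set hcomb)
    rw [Set.mem_iUnion₂]
    refine ⟨t - (η * (d + 1)) • c - (1 - ρ) • z₀, Finset.mem_image_of_mem _ htY,
      (1 - ρ) • z₀ + ρ • k₃, hint, ?_⟩
    simp only
    have hx : x = t + l • k₁ := by rw [hk₁']; abel
    have hk'' : -(η • k') = (η * d) • k₂ - (η * (d + 1)) • c := by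
      rw [← smul_neg, hk₂', smul_sub, smul_smul, smul_smul]
    rw [hyx, hx, hρk₃, smul_sub, sub_eq_add_neg (η • k), hk'']
    abel
  · refine le_trans (b := (Y.card : ℝ)) (by exact_mod_cast Finset.card_image_le) ?_
    refine hYcard.trans (le_of_eq ?_)
    rw [Real.log_pow]
    ring

variable {d : ℕ} {K : Set (EuclideanSpace ℝ (Fin d))}

theorem isG_gauge (hK : Convex ℝ K) (hK0 : K ∈ nhds 0) : IsG (gauge K) where
  nonneg := gauge_nonneg
  add := gauge_add_le hK (absorbent_nhds_zero hK0)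
  smul := fun c hc x => by rw [gauge_smul_of_nonneg hc, smul_eq_mul]
  cont := continuous_gauge hK hK0

theorem ball_eq (hK : Convex ℝ K) (hKc : IsCompact K) (hK0 : K ∈ nhds 0) :
    {y : EuclideanSpace ℝ (Fin d) | gauge K y ≤ 1} = K := by
  ext y
  rw [Set.mem_ofPred_eq, gauge_le_one_iff_mem_closure hK hK0, hKc.isClosed.closure_eq]

theorem mem_smul_iff (hK : Convex ℝ K) (hKc : IsCompact K) (hK0 : K ∈ nhds 0) (l : ℝ)
    (hl : 0 < l) (x : EuclideanSpace ℝ (Fin d)) : x ∈ l • K ↔ gauge K x ≤ l := by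
  have hb := ball_eq hK hKc hK0
  rw [Set.mem_smul_set_iff_inv_smul_mem₀ hl.ne']
  have : l⁻¹ • x ∈ K ↔ gauge K (l⁻¹ • x) ≤ 1 := by
    conv_lhs => rw [← hb]
    rfl
  rw [this, (isG_gauge hK hK0).smul _ (by positivity), inv_mul_le_iff₀ hl, mul_one]

/-- Covering bound in terms of thin supporting slabs. -/
theorem cover_thin (hd : 2 ≤ d) (hK : Convex ℝ K) (hKc : IsCompact K) (hK0 : K ∈ nhds 0)
    {P : EuclideanSpace ℝ (Fin d) → ℝ} (hP : IsP (gauge K) P)
    (β τ lam : ℝ) (hβ0 : 0 < β) (hβ1 : β ≤ 1) (hτ : 0 ≤ τ)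
    (hτ2 : τ ≤ Real.exp (-(60 * (lam / β))))
    (hS : ENNReal.ofReal β * volume K
      ≤ volume {z : EuclideanSpace ℝ (Fin d) | z ∈ K ∧ gauge K z ≤ P z})
    (hmax : ∀ x : EuclideanSpace ℝ (Fin d), ∀ η : ℝ, 0 < η →
      ∃ φ : EuclideanSpace ℝ (Fin d) →L[ℝ] ℝ, P x - η ≤ φ x ∧ IsThinG (gauge K) τ φ) :
    ∃ T : Finset (EuclideanSpace ℝ (Fin d)),
      K ⊆ ⋃ t ∈ T, (fun x => t + x) '' interior K ∧
      (T.card : ℝ) ≤ 1 + 12 * d * Real.log (2 * d ^ 2 + 2 * d + 1) * 2 ^ d * Real.exp (-lam) := by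
  classical
  have hg := isG_gauge hK hK0
  have hb := ball_eq hK hKc hK0
  have h0 : volume {y : EuclideanSpace ℝ (Fin d) | gauge K y ≤ 1} ≠ 0 := by
    rw [hb]; exact (Measure.measure_pos_of_mem_nhds volume hK0).ne'
  have hfin : volume {y : EuclideanSpace ℝ (Fin d) | gauge K y ≤ 1} ≠ ⊤ := by
    rw [hb]; exact hKc.measure_lt_top.ne
  have hS' : ENNReal.ofReal β * volume {y : EuclideanSpace ℝ (Fin d) | gauge K y ≤ 1}
      ≤ volume {z : EuclideanSpace ℝ (Fin d) | gauge K z ≤ 1 ∧ gauge K z ≤ P z} := by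
    rw [hb]
    refine hS.trans (measure_mono ?_)
    rintro z ⟨h1, h2⟩
    rw [← hb] at h1
    exact ⟨h1, h2⟩
  have hd' : (2 : ℝ) ≤ d := by exact_mod_cast hd
  have hdi : 1 / (d : ℝ) ≤ 1 / 2 := one_div_le_one_div_of_le (by norm_num) hd'
  have hdi0 : 0 < 1 / (d : ℝ) := by positivity
  have hl0 : 0 < 1 - 1 / (d : ℝ) := by linarith
  set θ : ℝ := Real.exp lam / 3 * ((1 - 1 / (d : ℝ)) / 2) ^ d with hθ
  have hθ0 : 0 < θ := by positivity
  have hθ1 : θ ≤ 1 := by
    by_contra hcon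
    push Not at hcon
    refine core (ι := Unit) hd hg hP h0 hfin β τ lam hβ0 hβ1 hτ hτ2 hS' hmax
      (fun _ => 0) (by simp) θ hθ ?_
    intro y
    simp only [Finset.univ_unique, Finset.sum_singleton, Fintype.card_unit, Nat.cast_one, mul_one]
    split_ifs <;> linarith
  have hfr : Module.finrank ℝ (EuclideanSpace ℝ (Fin d)) = d := by simp
  have hKi : (interior K).Nonempty := ⟨0, mem_interior_iff_mem_nhds.mpr hK0⟩
  obtain ⟨T, hT, hcard⟩ := cover_of_share K hK hKc hKi (by rw [hfr]; omega)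
    (1 - 1 / d) (1 / (2 * d * (d + 1))) θ hl0 (by positivity) (by
      rw [hfr]
      have : (1 : ℝ) / (2 * d * (d + 1)) + 1 / (2 * d * (d + 1)) * d = 1 / (2 * d) := by
        field_simp
        ring
      have h2 : (1 : ℝ) / (2 * d) < 1 / d := by
        rw [div_lt_div_iff₀ (by positivity) (by positivity)]; linarith
      linarith) hθ0 hθ1 (by
      intro A hA hAne
      have : Nonempty A := hAne.to_subtype
      by_contra hcon
      push Not at hcon
      refine core (ι := A) hd hg hP h0 hfin β τ lam hβ0 hβ1 hτ hτ2 hS' hmax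
        (fun a => (a : EuclideanSpace ℝ (Fin d))) (fun a => ?_) θ hθ ?_
      · have := hA _ a.2
        rw [← hb] at this
        exact this
      · intro y
        have h1 := hcon y
        rw [Fintype.card_coe]
        refine le_trans (le_of_eq ?_) h1.le
        rw [Finset.card_filter]
        push_cast
        rw [← Finset.sum_coe_sort A]
        refine Finset.sum_congr rfl fun a _ => ?_
        simp only [mem_smul_iff hK hKc hK0 _ hl0])
  refine ⟨T, hT, hcard.trans ?_⟩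
  rw [hfr]
  have e1 : (1 : ℝ) + 1 / (1 / (2 * d * (d + 1))) = 2 * d ^ 2 + 2 * d + 1 := by
    rw [one_div_one_div]; ring
  rw [e1]
  have hq := quarter_le d hd
  have hlogpos : 0 ≤ Real.log (2 * (d : ℝ) ^ 2 + 2 * d + 1) := Real.log_nonneg (by nlinarith)
  have h1 : 1 / θ ≤ 12 * 2 ^ d * Real.exp (-lam) := by
    rw [hθ, div_pow, Real.exp_neg]
    have he := Real.exp_pos lam
    have hpow : 0 < (1 - 1 / (d : ℝ)) ^ d := by linarith
    rw [div_le_iff₀ (by positivity)]
    have : 12 * 2 ^ d * (Real.exp lam)⁻¹ * (Real.exp lam / 3 * ((1 - 1 / (d : ℝ)) ^ d / 2 ^ d))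
        = 4 * (1 - 1 / (d : ℝ)) ^ d := by
      field_simp
      ring
    rw [this]
    linarith
  calc 1 + (d : ℝ) * Real.log (2 * d ^ 2 + 2 * d + 1) / θ
      = 1 + (d : ℝ) * Real.log (2 * d ^ 2 + 2 * d + 1) * (1 / θ) := by ring
    _ ≤ 1 + (d : ℝ) * Real.log (2 * d ^ 2 + 2 * d + 1) * (12 * 2 ^ d * Real.exp (-lam)) := by
        gcongr
    _ = _ := by ring

theorem isP_sup {g : EuclideanSpace ℝ (Fin d) → ℝ} (hg : IsG g)
    (Φ : Set (EuclideanSpace ℝ (Fin d) →L[ℝ] ℝ)) (hne : Nonempty Φ) (hΦ : ∀ φ ∈ Φ, ∀ y, φ y ≤ g y) :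
    IsP g (fun x => ⨆ φ : Φ, (φ : EuclideanSpace ℝ (Fin d) →L[ℝ] ℝ) x) := by
  have hbx : ∀ x, BddAbove (range fun φ : Φ => (φ : EuclideanSpace ℝ (Fin d) →L[ℝ] ℝ) x) := by
    intro x
    refine ⟨g x, ?_⟩
    rintro _ ⟨φ, rfl⟩
    exact hΦ _ φ.2 x
  set P : EuclideanSpace ℝ (Fin d) → ℝ :=
    fun x => ⨆ φ : Φ, (φ : EuclideanSpace ℝ (Fin d) →L[ℝ] ℝ) x with hP
  have hadd : ∀ x y, P (x + y) ≤ P x + P y := by
    intro x y
    refine ciSup_le fun φ => ?_
    rw [map_add]
    exact add_le_add (le_ciSup (hbx x) φ) (le_ciSup (hbx y) φ)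
  have hle : ∀ x, P x ≤ g x := fun x => ciSup_le fun φ => hΦ _ φ.2 x
  refine ⟨hadd, ?_, ?_, hle⟩
  · intro c hc x
    simp only [hP, map_smul, smul_eq_mul]
    rw [Real.mul_iSup_of_nonneg hc]
  · rw [continuous_iff_continuousAt]
    intro y
    have hup : ∀ x, P x ≤ P y + g (x - y) := by
      intro x
      calc P x = P (y + (x - y)) := by congr 1; abel
        _ ≤ P y + P (x - y) := hadd _ _
        _ ≤ P y + g (x - y) := by gcongr; exact hle _
    have hlo : ∀ x, P y - g (y - x) ≤ P x := by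
      intro x
      have : P y ≤ P x + g (y - x) := by
        calc P y = P (x + (y - x)) := by congr 1; abel
          _ ≤ P x + P (y - x) := hadd _ _
          _ ≤ P x + g (y - x) := by gcongr; exact hle _
      linarith
    have h1 : Filter.Tendsto (fun x => P y + g (x - y)) (nhds y) (nhds (P y)) := by
      have : Continuous fun x => P y + g (x - y) :=
        continuous_const.add (hg.cont.comp (continuous_id.sub continuous_const))
      have h2 := this.tendsto y
      simpa [hg.zero] using h2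
    have h3 : Filter.Tendsto (fun x => P y - g (y - x)) (nhds y) (nhds (P y)) := by
      have : Continuous fun x => P y - g (y - x) :=
        continuous_const.sub (hg.cont.comp (continuous_const.sub continuous_id))
      have h2 := this.tendsto y
      simpa [hg.zero] using h2
    exact tendsto_of_tendsto_of_tendsto_of_le_of_le h3 h1 hlo hup

theorem thin_cover (hd : 2 ≤ d) (hK : Convex ℝ K) (hKc : IsCompact K) (hK0 : K ∈ nhds 0)
    (β τ : ℝ) (hβ0 : 0 < β) (hβ1 : β ≤ 1) (hτ : 0 < τ)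
    (hS : ENNReal.ofReal β * volume K
      ≤ volume {z : EuclideanSpace ℝ (Fin d) | z ∈ K ∧
        ∃ φ, IsThinG (gauge K) τ φ ∧ φ z = gauge K z}) :
    ∃ T : Finset (EuclideanSpace ℝ (Fin d)),
      K ⊆ ⋃ t ∈ T, (fun x => t + x) '' interior K ∧
      (T.card : ℝ) ≤ 1 + 12 * d * Real.log (2 * d ^ 2 + 2 * d + 1) * 2 ^ d * τ ^ (β / 60) := by
  classical
  have hV0 : volume K ≠ 0 := (Measure.measure_pos_of_mem_nhds volume hK0).ne'
  let Φ : Set (EuclideanSpace ℝ (Fin d) →L[ℝ] ℝ) := {φ | IsThinG (gauge K) τ φ}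
  have hne : Nonempty Φ := by
    have h1 : volume {z : EuclideanSpace ℝ (Fin d) | z ∈ K ∧
        ∃ φ, IsThinG (gauge K) τ φ ∧ φ z = gauge K z} ≠ 0 := by
      intro h
      rw [h] at hS
      exact mul_ne_zero (ENNReal.ofReal_pos.mpr hβ0).ne' hV0 (le_antisymm hS zero_le)
    obtain ⟨z, -, φ, hφ, -⟩ := MeasureTheory.nonempty_of_measure_ne_zero h1
    exact ⟨φ, hφ⟩
  have hP := isP_sup (isG_gauge hK hK0) Φ hne (fun φ hφ y => hφ.le y)
  have hbx : ∀ x, BddAbove (range fun φ : Φ => (φ : EuclideanSpace ℝ (Fin d) →L[ℝ] ℝ) x) := by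
    intro x
    refine ⟨gauge K x, ?_⟩
    rintro _ ⟨φ, rfl⟩
    exact φ.2.le x
  obtain ⟨T, hT1, hT2⟩ := cover_thin hd hK hKc hK0 hP β τ (-(β / 60 * Real.log τ))
    hβ0 hβ1 hτ.le (by
      have e : -(60 * (-(β / 60 * Real.log τ) / β)) = Real.log τ := by
        field_simp
      rw [e, Real.exp_log hτ]) (by
      refine hS.trans (measure_mono ?_)
      rintro z ⟨hz1, φ, hφ, hφz⟩
      refine ⟨hz1, ?_⟩
      rw [← hφz]
      exact le_ciSup (hbx z) (⟨φ, hφ⟩ : Φ)) (by
      intro x η hη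
      have h1 : (⨆ φ : Φ, (φ : EuclideanSpace ℝ (Fin d) →L[ℝ] ℝ) x) - η
          < ⨆ φ : Φ, (φ : EuclideanSpace ℝ (Fin d) →L[ℝ] ℝ) x := by linarith
      obtain ⟨φ, hφ⟩ := exists_lt_of_lt_ciSup h1
      exact ⟨φ, hφ.le, φ.2⟩)
  refine ⟨T, hT1, hT2.trans (le_of_eq ?_)⟩
  rw [neg_neg, Real.rpow_def_of_pos hτ, mul_comm (β / 60)]

end Pool.Agent.TH591.Ns
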