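import Mathlib
import Pool.Agent.TH591.Ns.Cover

set_option autoImplicit false

/-!
Flatness of convex bodies which need not be symmetric.
-/

namespace Pool.Agent.TH591.Ns

open MeasureTheory Set Module
open scoped ENNReal Pointwise NNReal
open Pool.Agent.H815R2.Flat (bm_E)
open Pool.Agent.H815R2.Thin (geomK)

variable {d : ℕ} {g : EuclideanSpace ℝ (Fin d) → ℝ}

theorem markov (hg : IsG g)
    (φ : EuclideanSpace ℝ (Fin d) →L[ℝ] ℝ) (s : ℝ) (hs : 0 < s)
    (hφ : ∫⁻ z in {y : EuclideanSpace ℝ (Fin d) | g y ≤ 1}, ENNReal.ofReal |φ z|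
      ≤ ENNReal.ofReal s * volume {y : EuclideanSpace ℝ (Fin d) | g y ≤ 1}) :
    4 * volume {z : EuclideanSpace ℝ (Fin d) | g z ≤ 1 ∧ 4 * s ≤ |φ z|}
      ≤ volume {y : EuclideanSpace ℝ (Fin d) | g y ≤ 1} := by
  set K : Set (EuclideanSpace ℝ (Fin d)) := {y | g y ≤ 1} with hK
  have hm : MeasurableSet {z : EuclideanSpace ℝ (Fin d) | g z ≤ 1 ∧ 4 * s ≤ |φ z|} :=
    ((isClosed_le hg.cont continuous_const).inter
      (isClosed_le continuous_const (continuous_abs.comp φ.continuous))).measurableSet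
  have h2 : ENNReal.ofReal (4 * s) * volume {z : EuclideanSpace ℝ (Fin d) | g z ≤ 1 ∧ 4 * s ≤ |φ z|}
      ≤ ENNReal.ofReal s * volume K := by
    refine le_trans ?_ hφ
    rw [← setLIntegral_const]
    calc ∫⁻ _ in {z : EuclideanSpace ℝ (Fin d) | g z ≤ 1 ∧ 4 * s ≤ |φ z|}, ENNReal.ofReal (4 * s)
        ≤ ∫⁻ z in {z : EuclideanSpace ℝ (Fin d) | g z ≤ 1 ∧ 4 * s ≤ |φ z|},
            ENNReal.ofReal |φ z| := by
          refine setLIntegral_mono' hm ?_
          rintro z ⟨_, h⟩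
          exact ENNReal.ofReal_le_ofReal h
      _ ≤ ∫⁻ z in K, ENNReal.ofReal |φ z| := lintegral_mono_set fun z hz => hz.1
  have h3 : ENNReal.ofReal (4 * s) = ENNReal.ofReal s * 4 := by
    rw [mul_comm, ENNReal.ofReal_mul hs.le]
    norm_num
  rw [h3, mul_assoc] at h2
  exact (ENNReal.mul_le_mul_iff_right (ENNReal.ofReal_pos.mpr hs).ne' ENNReal.ofReal_ne_top).mp h2

theorem tail1 (hg : IsG g)
    (hfin : volume {y : EuclideanSpace ℝ (Fin d) | g y ≤ 1} ≠ ⊤)
    (φ : EuclideanSpace ℝ (Fin d) →L[ℝ] ℝ) (s : ℝ) (hs : 0 < s)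
    (hφ : ∫⁻ z in {y : EuclideanSpace ℝ (Fin d) | g y ≤ 1}, ENNReal.ofReal |φ z|
      ≤ ENNReal.ofReal s * volume {y : EuclideanSpace ℝ (Fin d) | g y ≤ 1}) (k : ℕ) :
    volume {z : EuclideanSpace ℝ (Fin d) | g z ≤ 1 ∧ -(4 * s) + 8 * s * k ≤ φ z}
      ≤ ENNReal.ofReal ((1 / 3) ^ k) * volume {y : EuclideanSpace ℝ (Fin d) | g y ≤ 1} := by
  set K : Set (EuclideanSpace ℝ (Fin d)) := {y | g y ≤ 1} with hK
  set V := volume K with hV
  have hmark := markov hg φ s hs hφ
  set M : Set (EuclideanSpace ℝ (Fin d)) := {z | g z ≤ 1 ∧ 4 * s ≤ |φ z|} with hM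
  have hMfin : volume M ≠ ⊤ := ne_top_of_le_ne_top hfin (measure_mono fun z hz => hz.1)
  set S : ℕ → Set (EuclideanSpace ℝ (Fin d)) :=
    fun k => {z | g z ≤ 1 ∧ -(4 * s) + 8 * s * k ≤ φ z} with hS
  have hSm : ∀ k, MeasurableSet (S k) := fun k =>
    ((isClosed_le hg.cont continuous_const).inter
      (isClosed_le continuous_const φ.continuous)).measurableSet
  have hSfin : ∀ k, volume (S k) ≠ ⊤ := fun k =>
    ne_top_of_le_ne_top hfin (measure_mono fun z hz => hz.1)
  set a : ℕ → ℝ := fun k => (volume (S k)).toReal with ha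
  have hmono : ∀ k, a (k + 1) ≤ a k := by
    intro k
    refine ENNReal.toReal_mono (hSfin k) (measure_mono ?_)
    rintro z ⟨h1, h2⟩
    refine ⟨h1, le_trans ?_ h2⟩
    push_cast
    nlinarith
  have hlc : ∀ k, a k * a (k + 2) ≤ a (k + 1) ^ 2 := by
    intro k
    have := bm_E (hSm k) (hSm (k + 2)) (hSm (k + 1)) (by
      rintro x ⟨hx1, hx2⟩ y ⟨hy1, hy2⟩
      constructor
      · rw [hg.smul _ (by norm_num)]
        have := hg.add x y
        linarith
      · rw [map_smul, map_add, smul_eq_mul]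
        push_cast at hx2 hy2 ⊢
        linarith)
    have h2 := ENNReal.toReal_mono (by
      exact ENNReal.pow_ne_top (hSfin _)) this
    rwa [ENNReal.toReal_mul, ENNReal.toReal_pow] at h2
  have hm4 : 4 * (volume M).toReal ≤ V.toReal := by
    have := ENNReal.toReal_mono hfin hmark
    rw [ENNReal.toReal_mul] at this
    simpa using this
  have ha0 : V.toReal ≤ a 0 + (volume M).toReal := by
    have h1 : V ≤ volume (S 0) + volume M := by
      refine le_trans (measure_mono ?_) (measure_union_le _ _)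
      intro z hz
      by_cases h : -(4 * s) + 8 * s * (0 : ℕ) ≤ φ z
      · exact Or.inl ⟨hz, h⟩
      · right
        refine ⟨hz, ?_⟩
        push_cast at h
        rw [mul_zero, add_zero, not_le] at h
        exact le_trans (by linarith) (neg_le_abs _)
    have h2 := ENNReal.toReal_mono (ENNReal.add_ne_top.mpr ⟨hSfin 0, hMfin⟩) h1
    rwa [ENNReal.toReal_add (hSfin 0) hMfin] at h2
  have ha1 : a 1 ≤ (volume M).toReal := by
    refine ENNReal.toReal_mono hMfin (measure_mono ?_)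
    rintro z ⟨h1, h2⟩
    refine ⟨h1, ?_⟩
    push_cast at h2
    exact le_trans (by linarith) (le_abs_self _)
  have h1 : a 1 ≤ 1 / 3 * a 0 := by linarith
  have hgg := geomK a (1 / 3) (by norm_num) (fun k => ENNReal.toReal_nonneg) hmono hlc h1 k
  rw [← ENNReal.toReal_le_toReal (hSfin k) (ENNReal.mul_ne_top ENNReal.ofReal_ne_top hfin),
    ENNReal.toReal_mul, ENNReal.toReal_ofReal (by positivity)]
  refine hgg.trans ?_
  gcongr
  exact ENNReal.toReal_mono hfin (measure_mono fun z hz => hz.1)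

/-- Thinness from a small mean -/
theorem thin_of_mean (hg : IsG g)
    (hfin : volume {y : EuclideanSpace ℝ (Fin d) | g y ≤ 1} ≠ ⊤)
    (φ : EuclideanSpace ℝ (Fin d) →L[ℝ] ℝ) (hφ1 : ∀ y, φ y ≤ g y) (s : ℝ) (hs : 0 < s)
    (hφ : ∫⁻ z in {y : EuclideanSpace ℝ (Fin d) | g y ≤ 1}, ENNReal.ofReal |φ z|
      ≤ ENNReal.ofReal s * volume {y : EuclideanSpace ℝ (Fin d) | g y ≤ 1}) :
    IsThinG g (6 * Real.exp (-(1 / (32 * s)))) φ := by
  refine ⟨hφ1, ?_⟩
  set k : ℕ := ⌊1 / (32 * s)⌋₊ with hk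
  have hk1 : (k : ℝ) ≤ 1 / (32 * s) := Nat.floor_le (by positivity)
  have hk2 : 1 / (32 * s) < k + 1 := Nat.lt_floor_add_one _
  have hle : -(4 * s) + 8 * s * k ≤ 1 / 4 := by
    have : 8 * s * k ≤ 8 * s * (1 / (32 * s)) := by gcongr
    have e : 8 * s * (1 / (32 * s)) = 1 / 4 := by field_simp; norm_num
    linarith
  have h1 := tail1 hg hfin φ s hs hφ k
  have h2 := tail1 hg hfin (-φ) s hs (by simpa using hφ) k
  have hnum : (1 / 3 : ℝ) ^ k + (1 / 3 : ℝ) ^ k ≤ 6 * Real.exp (-(1 / (32 * s))) := by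
    have h3 : (1 / 3 : ℝ) ≤ Real.exp (-1) := by
      rw [Real.exp_neg, ← one_div]
      apply one_div_le_one_div_of_le (Real.exp_pos _)
      have := Real.exp_one_lt_d9
      linarith
    have h4 : (1 / 3 : ℝ) ^ k ≤ Real.exp 1 * Real.exp (-(1 / (32 * s))) := by
      calc (1 / 3 : ℝ) ^ k ≤ (Real.exp (-1)) ^ k := by gcongr
        _ = Real.exp (-(k : ℝ)) := by rw [← Real.exp_nat_mul]; congr 1; ring
        _ ≤ Real.exp (1 + -(1 / (32 * s))) := by
            apply Real.exp_le_exp.mpr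
            linarith
        _ = _ := Real.exp_add _ _
    have h5 : Real.exp 1 ≤ 3 := by
      have := Real.exp_one_lt_d9
      linarith
    have h6 := Real.exp_pos (-(1 / (32 * s)))
    nlinarith
  calc volume {z : EuclideanSpace ℝ (Fin d) | g z ≤ 1 ∧ 1 / 4 ≤ |φ z|}
      ≤ volume ({z : EuclideanSpace ℝ (Fin d) | g z ≤ 1 ∧ -(4 * s) + 8 * s * k ≤ φ z}
        ∪ {z | g z ≤ 1 ∧ -(4 * s) + 8 * s * k ≤ (-φ) z}) := by
        refine measure_mono ?_
        rintro z ⟨hz1, hz2⟩
        rcases le_abs.mp hz2 with h | h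
        · exact Or.inl ⟨hz1, hle.trans h⟩
        · exact Or.inr ⟨hz1, hle.trans h⟩
    _ ≤ _ := measure_union_le _ _
    _ ≤ ENNReal.ofReal ((1 / 3) ^ k) * volume {y : EuclideanSpace ℝ (Fin d) | g y ≤ 1}
        + ENNReal.ofReal ((1 / 3) ^ k) * volume {y : EuclideanSpace ℝ (Fin d) | g y ≤ 1} :=
        add_le_add h1 h2
    _ ≤ _ := by
        rw [← add_mul, ← ENNReal.ofReal_add (by positivity) (by positivity)]
        gcongr

theorem fderiv_le (hg : IsG g) (w v : EuclideanSpace ℝ (Fin d))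
    (h : DifferentiableAt ℝ g w) : fderiv ℝ g w v ≤ g (w + v) - g w := by
  have hc : ConvexOn ℝ univ (fun s : ℝ => g (w + s • v)) := by
    refine ⟨convex_univ, ?_⟩
    intro a _ b _ s t hs ht hst
    have e : w + (s • a + t • b) • v = s • (w + a • v) + t • (w + b • v) := by
      have : w = (s + t) • w := by rw [hst, one_smul]
      conv_lhs => rw [this]
      simp only [smul_eq_mul, smul_add, smul_smul, add_smul]
      abel
    calc g (w + (s • a + t • b) • v) = g (s • (w + a • v) + t • (w + b • v)) := by rw [e]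
      _ ≤ g (s • (w + a • v)) + g (t • (w + b • v)) := hg.add _ _
      _ = s • g (w + a • v) + t • g (w + b • v) := by
        rw [hg.smul _ hs, hg.smul _ ht, smul_eq_mul, smul_eq_mul]
  have hd : HasDerivAt (fun s : ℝ => g (w + s • v)) (fderiv ℝ g w v) 0 := by
    have h1 : HasDerivAt (fun s : ℝ => w + s • v) v 0 := by
      have := ((hasDerivAt_id (0 : ℝ)).smul_const v).const_add w
      simpa using this
    have h2 : HasFDerivAt g (fderiv ℝ g w) (w + (0 : ℝ) • v) := by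
      rw [zero_smul, add_zero]
      exact h.hasFDerivAt
    exact h2.comp_hasDerivAt (0 : ℝ) h1
  have h3 := hc.le_slope_of_hasDerivAt (mem_univ (0 : ℝ)) (mem_univ (1 : ℝ)) zero_lt_one hd
  rw [slope_def_field] at h3
  simpa using h3

theorem fderiv_le_g (hg : IsG g) (w v : EuclideanSpace ℝ (Fin d)) : fderiv ℝ g w v ≤ g v := by
  by_cases h : DifferentiableAt ℝ g w
  · have h1 := fderiv_le hg w v h
    have h3 := hg.add w v
    linarith
  · rw [fderiv_zero_of_not_differentiableAt h]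
    simpa using hg.nonneg v

theorem euler (hg : IsG g) (w : EuclideanSpace ℝ (Fin d))
    (h : DifferentiableAt ℝ g w) : fderiv ℝ g w w = g w := by
  have h1 := fderiv_le hg w w h
  have h2 := fderiv_le hg w (-w) h
  rw [map_neg, add_neg_cancel, hg.zero] at h2
  have h3 := hg.add w w
  linarith

theorem measurable_joint (g : EuclideanSpace ℝ (Fin d) → ℝ) :
    Measurable (fun x : EuclideanSpace ℝ (Fin d) × EuclideanSpace ℝ (Fin d) =>
      fderiv ℝ g x.1 x.2) := by
  have h : (fun x : EuclideanSpace ℝ (Fin d) × EuclideanSpace ℝ (Fin d) => fderiv ℝ g x.1 x.2)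
      = fun x => ∑ i, x.2 i * fderiv ℝ g x.1 (EuclideanSpace.single i 1) := by
    ext x
    have hx : x.2 = ∑ i, x.2 i • EuclideanSpace.single i (1 : ℝ) := by
      ext j
      simp [Pi.single_apply]
    conv_lhs => rw [hx]
    rw [map_sum]
    refine Finset.sum_congr rfl fun i _ => ?_
    rw [map_smul, smul_eq_mul]
  rw [h]
  refine Finset.measurable_sum _ fun i _ => ?_
  refine Measurable.mul ?_ ?_
  · have : Continuous fun x : EuclideanSpace ℝ (Fin d) × EuclideanSpace ℝ (Fin d) => x.2 i := by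
      fun_prop
    exact this.measurable
  · exact (measurable_fderiv_apply_const ℝ g _).comp measurable_fst

/-- inner integral -/
noncomputable def inn (g : EuclideanSpace ℝ (Fin d) → ℝ)
    (z : EuclideanSpace ℝ (Fin d)) : ℝ≥0∞ :=
  ∫⁻ z' in {y : EuclideanSpace ℝ (Fin d) | g y ≤ 1}, ENNReal.ofReal |fderiv ℝ g z z'|

theorem inn_meas (g : EuclideanSpace ℝ (Fin d) → ℝ) : Measurable (inn g) := by
  have h := (measurable_joint g).abs.ennreal_ofReal
  exact h.lintegral_prod_right'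

/-- Markov: small flatness gives many thin functionals -/
theorem thin_of_flat (hg : IsG g) (hdiff : ∀ᵐ z, DifferentiableAt ℝ g z)
    (h0 : volume {y : EuclideanSpace ℝ (Fin d) | g y ≤ 1} ≠ 0)
    (hfin : volume {y : EuclideanSpace ℝ (Fin d) | g y ≤ 1} ≠ ⊤)
    (ρ : ℝ) (hρ0 : 0 < ρ)
    (hF : ∫⁻ z in {y : EuclideanSpace ℝ (Fin d) | g y ≤ 1}, inn g z
      ≤ ENNReal.ofReal ρ * (volume {y : EuclideanSpace ℝ (Fin d) | g y ≤ 1}
        * volume {y : EuclideanSpace ℝ (Fin d) | g y ≤ 1})) :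
    ENNReal.ofReal (1 / 2) * volume {y : EuclideanSpace ℝ (Fin d) | g y ≤ 1}
      ≤ volume {z : EuclideanSpace ℝ (Fin d) | g z ≤ 1 ∧
        ∃ φ, IsThinG g (6 * Real.exp (-(1 / (64 * ρ)))) φ ∧ φ z = g z} := by
  set K : Set (EuclideanSpace ℝ (Fin d)) := {y | g y ≤ 1} with hK
  set V := volume K with hV
  set G : Set (EuclideanSpace ℝ (Fin d)) := {z | g z ≤ 1 ∧
        ∃ φ, IsThinG g (6 * Real.exp (-(1 / (64 * ρ)))) φ ∧ φ z = g z} with hG
  have hKm : MeasurableSet K := hg.ms 1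
  have hinnm : Measurable (inn g) := inn_meas g
  set ε : ℝ≥0∞ := ENNReal.ofReal (2 * ρ) * V with hε
  have hmark := mul_meas_ge_le_lintegral₀ (μ := volume.restrict K) hinnm.aemeasurable ε
  have hbm : MeasurableSet {x | ε ≤ inn g x} := measurableSet_le measurable_const hinnm
  rw [Measure.restrict_apply hbm] at hmark
  have hcov : V ≤ volume G + volume ({x | ε ≤ inn g x} ∩ K) := by
    have hN : volume {z : EuclideanSpace ℝ (Fin d) | ¬ DifferentiableAt ℝ g z} = 0 := hdiff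
    calc V ≤ volume ((G ∪ ({x | ε ≤ inn g x} ∩ K)) ∪ {z | ¬ DifferentiableAt ℝ g z}) := by
          refine measure_mono ?_
          intro z hz
          by_cases hzd : DifferentiableAt ℝ g z
          · left
            by_cases hze : ε ≤ inn g z
            · exact Or.inr ⟨hze, hz⟩
            · left
              refine ⟨hz, fderiv ℝ g z, ?_, euler hg z hzd⟩
              have h1 := thin_of_mean hg hfin (fderiv ℝ g z) (fun y => fderiv_le_g hg z y)
                (2 * ρ) (by positivity) (not_le.mp hze).le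
              have e : 32 * (2 * ρ) = 64 * ρ := by ring
              rwa [e] at h1
          · right
            exact hzd
      _ ≤ volume (G ∪ ({x | ε ≤ inn g x} ∩ K)) + volume {z | ¬ DifferentiableAt ℝ g z} :=
          measure_union_le _ _
      _ = volume (G ∪ ({x | ε ≤ inn g x} ∩ K)) := by rw [hN, add_zero]
      _ ≤ _ := measure_union_le _ _
  have hGfin : volume G ≠ ⊤ := ne_top_of_le_ne_top hfin (measure_mono fun z hz => hz.1)
  have hBfin : volume ({x | ε ≤ inn g x} ∩ K) ≠ ⊤ :=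
    ne_top_of_le_ne_top hfin (measure_mono fun z hz => hz.2)
  have hVr : 0 < V.toReal := ENNReal.toReal_pos h0 hfin
  have h1 := ENNReal.toReal_mono (ENNReal.add_ne_top.mpr ⟨hGfin, hBfin⟩) hcov
  rw [ENNReal.toReal_add hGfin hBfin] at h1
  have h2 := ENNReal.toReal_mono (ENNReal.mul_ne_top ENNReal.ofReal_ne_top
    (ENNReal.mul_ne_top hfin hfin)) (hmark.trans hF)
  rw [hε, ENNReal.toReal_mul, ENNReal.toReal_mul, ENNReal.toReal_mul, ENNReal.toReal_mul,
    ENNReal.toReal_ofReal (by positivity), ENNReal.toReal_ofReal hρ0.le] at h2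
  have h3 : (volume ({x | ε ≤ inn g x} ∩ K)).toReal ≤ V.toReal / 2 := by
    have h4 : 0 < 2 * ρ * V.toReal := by positivity
    have h5 : 2 * ρ * V.toReal * (volume ({x | ε ≤ inn g x} ∩ K)).toReal
        ≤ 2 * ρ * V.toReal * (V.toReal / 2) := by
      refine h2.trans (le_of_eq ?_)
      ring
    exact le_of_mul_le_mul_left h5 h4
  rw [← ENNReal.toReal_le_toReal (ENNReal.mul_ne_top ENNReal.ofReal_ne_top hfin) hGfin,
    ENNReal.toReal_mul, ENNReal.toReal_ofReal (by norm_num)]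
  linarith

theorem flat_num (ρ : ℝ) (hρ : 0 < ρ) :
    (6 * Real.exp (-(1 / (64 * ρ)))) ^ ((1 / 2 : ℝ) / 60)
      ≤ 13 / 12 * Real.exp (-(1 / (7680 * ρ))) := by
  have h1 : (0 : ℝ) ≤ Real.exp (-(1 / (64 * ρ))) := (Real.exp_pos _).le
  rw [Real.mul_rpow (by norm_num) h1, ← Real.exp_mul]
  have e : -(1 / (64 * ρ)) * (1 / 2 / 60) = -(1 / (7680 * ρ)) := by
    field_simp
    norm_num
  rw [e]
  gcongr
  have h2 : (6 : ℝ) ≤ (13 / 12 : ℝ) ^ (120 : ℝ) := by
    rw [show (120 : ℝ) = ((120 : ℕ) : ℝ) by norm_num, Real.rpow_natCast]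
    have := one_add_mul_le_pow (show (-2 : ℝ) ≤ 1 / 12 by norm_num) 120
    norm_num at this ⊢
  calc (6 : ℝ) ^ ((1 / 2 : ℝ) / 60) ≤ ((13 / 12 : ℝ) ^ (120 : ℝ)) ^ ((1 / 2 : ℝ) / 60) :=
        Real.rpow_le_rpow (by norm_num) h2 (by norm_num)
    _ = 13 / 12 := by
        rw [← Real.rpow_mul (by norm_num)]
        norm_num

end Pool.Agent.TH591.Ns
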